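import Mathlib

/-!
# Parsing expression grammars
-/

set_option autoImplicit false

namespace Pool.Agent.H42.PEG

/-- Parsing expressions with nonterminals in `N` and terminals in `T`: the empty expression,
terminals, nonterminals, sequence `e₁ e₂`, prioritized choice `e₁ / e₂` and the not-predicate
`! e`. -/
inductive Exp (N T : Type) : Type
  | eps : Exp N T
  | term : T → Exp N T
  | nt : N → Exp N T
  | seq : Exp N T → Exp N T → Exp N T
  | alt : Exp N T → Exp N T → Exp N T
  | neg : Exp N T → Exp N T

/-- A parsing expression grammar with nonterminals `N` and terminals `T`: exactly one rule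
`A ← rule A` for each nonterminal `A`, and a start symbol. -/
structure Grammar (N T : Type) where
  rule : N → Exp N T
  start : N

/-- `Parses G e w r` says that `R(e, w)` is defined and equal to `r`, where `none` is the failure
symbol and `some s` means that `e` has parsed a part of `w` up to the unconsumed rest `s`. The
value of `R(e, w)` is undefined (there is no such `r`) iff the recursion does not terminate. -/
inductive Parses {N T : Type} (G : Grammar N T) : Exp N T → List T → Option (List T) → Prop
  | eps (w : List T) : Parses G Exp.eps w (some w)
  | term_ok (a : T) (s : List T) : Parses G (Exp.term a) (a :: s) (some s)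
  | term_fail (a : T) (w : List T) (h : ∀ s, w ≠ a :: s) : Parses G (Exp.term a) w none
  | nt (A : N) (w : List T) (r : Option (List T)) (h : Parses G (G.rule A) w r) :
      Parses G (Exp.nt A) w r
  | seq_ok (e₁ e₂ : Exp N T) (w s : List T) (r : Option (List T))
      (h₁ : Parses G e₁ w (some s)) (h₂ : Parses G e₂ s r) : Parses G (Exp.seq e₁ e₂) w r
  | seq_fail (e₁ e₂ : Exp N T) (w : List T) (h₁ : Parses G e₁ w none) :
      Parses G (Exp.seq e₁ e₂) w none
  | alt_left (e₁ e₂ : Exp N T) (w s : List T) (h₁ : Parses G e₁ w (some s)) :
      Parses G (Exp.alt e₁ e₂) w (some s)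
  | alt_right (e₁ e₂ : Exp N T) (w : List T) (r : Option (List T))
      (h₁ : Parses G e₁ w none) (h₂ : Parses G e₂ w r) : Parses G (Exp.alt e₁ e₂) w r
  | neg_ok (e : Exp N T) (w : List T) (h : Parses G e w none) :
      Parses G (Exp.neg e) w (some w)
  | neg_fail (e : Exp N T) (w s : List T) (h : Parses G e w (some s)) :
      Parses G (Exp.neg e) w none

/-- The language of a grammar: the words `w` for which `R(S, w)` is the empty word, where `S` is
the start symbol. -/
def Grammar.lang {N T : Type} (G : Grammar N T) : Language T :=
  {w | Parses G (Exp.nt G.start) w (some [])}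

/-- Parsing expression languages: the languages of parsing expression grammars with finitely many
nonterminals. -/
def IsPEL {T : Type} (L : Language T) : Prop :=
  ∃ (N : Type) (_ : Fintype N) (G : Grammar N T), G.lang = L

end Pool.Agent.H42.PEG
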