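import Pool.Agent.H42.PEG.Machine

/-!
# Circuits: bilinear maps by passes over a register
-/

set_option autoImplicit false

namespace Pool.Agent.H42.PEG

variable {d : ℕ}

/-- The register layout: accumulator, multiplier, temporary. -/
def lay (u v w : Fin d → ZMod 2) : List (ZMod 2) := List.ofFn u ++ (List.ofFn v ++ List.ofFn w)

/-- A block acting on the layout. -/
def pass (p₁ p₂ p₃ : Fin d → Ins) : List Ins := List.ofFn p₁ ++ (List.ofFn p₂ ++ List.ofFn p₃)

theorem length_lay (u v w : Fin d → ZMod 2) : (lay u v w).length = 3 * d := by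
  simp [lay]; omega

theorem length_pass (p₁ p₂ p₃ : Fin d → Ins) : (pass p₁ p₂ p₃).length = 3 * d := by
  simp [pass]; omega

theorem delta_fst_of_ne {c : Ins} (h : c ≠ Ins.L) (q r : ZMod 2) : (delta c q r).1 = q := by
  cases c <;> first | rfl | exact absurd rfl h

theorem fwd_ofFn_noL (p : Fin d → Ins) (hp : ∀ k, p k ≠ Ins.L) (q : ZMod 2) (u : Fin d → ZMod 2) :
    fwd q (List.ofFn p) (List.ofFn u) = List.ofFn (fun k => (delta (p k) q (u k)).2) ∧
      fin q (List.ofFn p) (List.ofFn u) = q := by
  induction d with
  | zero => simp [fwd, fin]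
  | succ d ih =>
      obtain ⟨h1, h2⟩ := ih (fun k => p k.succ) (fun k => hp _) (fun k => u k.succ)
      rw [List.ofFn_succ, List.ofFn_succ (f := u), List.ofFn_succ (f := fun k => _)]
      simp only [fwd, fin]
      rw [delta_fst_of_ne (hp 0), h1, h2]
      exact ⟨rfl, rfl⟩

theorem fwd_ofFn_L (p : Fin d → Ins) (hp : ∀ k, p k = Ins.L ∨ p k = Ins.I) (q : ZMod 2)
    (u : Fin d → ZMod 2) :
    fwd q (List.ofFn p) (List.ofFn u) = List.ofFn u ∧
      fin q (List.ofFn p) (List.ofFn u) = q * ∏ k, (if p k = Ins.L then u k else 1) := by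
  induction d generalizing q with
  | zero => simp [fwd, fin]
  | succ d ih =>
      rw [List.ofFn_succ, List.ofFn_succ (f := u), Fin.prod_univ_succ]
      simp only [fwd, fin]
      obtain ⟨h1, h2⟩ := ih (fun k => p k.succ) (fun k => hp _) (delta (p 0) q (u 0)).1
        (fun k => u k.succ)
      rw [h1, h2]
      rcases hp 0 with h0 | h0
      · rw [h0]
        simp only [delta, if_true]
        exact ⟨trivial, by ring⟩
      · rw [h0]
        simp only [delta]
        exact ⟨trivial, by simp⟩

theorem prod_single (u : Fin d → ZMod 2) (i : Fin d) :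
    ∏ k, (if (if k = i then Ins.L else Ins.I) = Ins.L then u k else 1) = u i := by
  have : ∀ k, (if (if k = i then Ins.L else Ins.I) = Ins.L then u k else 1) =
      if k = i then u k else 1 := by
    intro k
    by_cases h : k = i <;> simp [h]
  rw [Finset.prod_congr rfl fun k _ => this k]
  simp

/-- Identity block. -/
def idb (d : ℕ) : List Ins := pass (fun _ : Fin d => Ins.I) (fun _ => Ins.I) (fun _ => Ins.I)

/-- Adding a product of an accumulator bit and a multiplier bit to the temporary. -/
def gate (c : Fin d → ZMod 2) (i j : Fin d) : List Ins :=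
  pass (fun k => if k = j then Ins.L else Ins.I) (fun k => if k = i then Ins.L else Ins.I)
    (fun k => if c k = 1 then Ins.X else Ins.I)

/-- Initialisation of the temporary. -/
def initb (a : Fin d → ZMod 2) : List Ins :=
  pass (fun _ => Ins.I) (fun _ => Ins.I) (fun k => if a k = 1 then Ins.O else Ins.Z)

theorem fwd_pass (q : ZMod 2) (p₁ p₂ p₃ : Fin d → Ins) (u v w : Fin d → ZMod 2) :
    fwd q (pass p₁ p₂ p₃) (lay u v w) =
      fwd q (List.ofFn p₁) (List.ofFn u) ++
      (fwd (fin q (List.ofFn p₁) (List.ofFn u)) (List.ofFn p₂) (List.ofFn v) ++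
      fwd (fin (fin q (List.ofFn p₁) (List.ofFn u)) (List.ofFn p₂) (List.ofFn v))
        (List.ofFn p₃) (List.ofFn w)) := by
  unfold pass lay
  rw [fwd_append _ _ _ _ _ (by simp), fwd_append _ _ _ _ _ (by simp)]

theorem fwd_idb (u v w : Fin d → ZMod 2) : fwd 1 (idb d) (lay u v w) = lay u v w := by
  have h : ∀ (q : ZMod 2) (u : Fin d → ZMod 2),
      fwd q (List.ofFn fun _ : Fin d => Ins.I) (List.ofFn u) = List.ofFn u ∧
      fin q (List.ofFn fun _ : Fin d => Ins.I) (List.ofFn u) = q := by
    intro q u
    have := fwd_ofFn_noL (fun _ : Fin d => Ins.I) (fun _ => by decide) q u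
    exact this
  unfold idb
  rw [fwd_pass, (h 1 u).1, (h 1 u).2, (h 1 v).1, (h 1 v).2, (h 1 w).1]
  rfl

theorem fwd_gate (c : Fin d → ZMod 2) (i j : Fin d) (u v w : Fin d → ZMod 2) :
    fwd 1 (gate c i j) (lay u v w) = lay u v (fun k => w k + c k * (u j * v i)) := by
  have hL : ∀ (i : Fin d) (q : ZMod 2) (u : Fin d → ZMod 2),
      fwd q (List.ofFn fun k => if k = i then Ins.L else Ins.I) (List.ofFn u) = List.ofFn u ∧
      fin q (List.ofFn fun k => if k = i then Ins.L else Ins.I) (List.ofFn u) = q * u i := by
    intro i q u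
    have := fwd_ofFn_L (fun k => if k = i then Ins.L else Ins.I)
      (fun k => by by_cases h : k = i <;> simp [h]) q u
    rw [prod_single] at this
    exact this
  unfold gate
  rw [fwd_pass, (hL j 1 u).1, (hL j 1 u).2, (hL i _ v).1, (hL i _ v).2,
    (fwd_ofFn_noL _ (fun k => by by_cases h : c k = 1 <;> simp [h]) _ w).1]
  unfold lay
  congr 3
  funext k
  rcases zmod2_cases (c k) with h | h
  · rw [h, if_neg (by decide)]
    simp [delta]
  · rw [h, if_pos rfl]
    simp [delta]

theorem fwd_initb (a : Fin d → ZMod 2) (u v w : Fin d → ZMod 2) :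
    fwd 1 (initb a) (lay u v w) = lay u v a := by
  have h : ∀ (q : ZMod 2) (u : Fin d → ZMod 2),
      fwd q (List.ofFn fun _ : Fin d => Ins.I) (List.ofFn u) = List.ofFn u ∧
      fin q (List.ofFn fun _ : Fin d => Ins.I) (List.ofFn u) = q := by
    intro q u
    have := fwd_ofFn_noL (fun _ : Fin d => Ins.I) (fun _ => by decide) q u
    exact this
  unfold initb
  rw [fwd_pass, (h 1 u).1, (h 1 u).2, (h 1 v).1, (h 1 v).2,
    (fwd_ofFn_noL _ (fun k => by by_cases h : a k = 1 <;> simp [h]) _ w).1]
  unfold lay
  congr 3
  funext k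
  rcases zmod2_cases (a k) with h | h
  · rw [h, if_neg (by decide)]
    simp [delta]
  · rw [h, if_pos rfl]
    simp [delta]

theorem reverse_ofFn' {α : Type} (u : Fin d → α) :
    (List.ofFn u).reverse = List.ofFn (fun k => u k.rev) := by
  refine List.ext_getElem (by simp) ?_
  intro i h1 h2
  rw [List.getElem_reverse]
  simp only [List.getElem_ofFn]
  congr 1
  apply Fin.ext
  simp only [List.length_ofFn, Fin.val_rev]
  omega

theorem reverse_lay (u v w : Fin d → ZMod 2) :
    (lay u v w).reverse = lay (fun k => w k.rev) (fun k => v k.rev) (fun k => u k.rev) := by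
  unfold lay
  rw [List.reverse_append, List.reverse_append, reverse_ofFn', reverse_ofFn', reverse_ofFn',
    List.append_assoc]

/-- The gates of a step. -/
def gates (c : Fin d → Fin d → Fin d → ZMod 2) : List (Fin d × Fin d) → List (List Ins)
  | [] => []
  | ij :: l => gate (c ij.1 ij.2) ij.1 ij.2 :: idb d :: gates c l

theorem cont_gates (c : Fin d → Fin d → Fin d → ZMod 2) (l : List (Fin d × Fin d))
    (gs : List (List Ins)) (h : List (ZMod 2)) (u v w : Fin d → ZMod 2)
    (hc : cont gs h = (lay u v w).reverse) :
    cont (gates c l ++ gs) h = (lay u v (fun k => w k +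
      (l.map fun ij => c ij.1 ij.2 k * (u ij.2 * v ij.1)).sum)).reverse := by
  induction l with
  | nil => simpa [gates] using hc
  | cons ij l ih =>
      simp only [gates, List.cons_append, cont]
      rw [ih]
      have h1 : (fwd 1 (idb d) (lay u v (fun k => w k +
        (l.map fun ij => c ij.1 ij.2 k * (u ij.2 * v ij.1)).sum)).reverse).reverse =
        (lay u v (fun k => w k +
        (l.map fun ij => c ij.1 ij.2 k * (u ij.2 * v ij.1)).sum)) := by
        rw [reverse_lay, fwd_idb, reverse_lay]
        simp
      rw [h1, fwd_gate]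
      congr 2
      funext k
      simp only [List.map_cons, List.sum_cons]
      ring

/-- One step: multiply the accumulator by the multiplier and add a constant; the result is
reversed. -/
noncomputable def step (c : Fin d → Fin d → Fin d → ZMod 2) (a : Fin d → ZMod 2) :
    List (List Ins) :=
  gates c (Finset.univ : Finset (Fin d × Fin d)).toList ++ [initb a]

theorem cont_append (gs gs' : List (List Ins)) (h : List (ZMod 2)) :
    cont (gs ++ gs') h = cont gs (cont gs' h) := by
  induction gs with
  | nil => rfl
  | cons g gs ih => simp only [List.cons_append, cont]; rw [ih]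

theorem cont_step (c : Fin d → Fin d → Fin d → ZMod 2) (a : Fin d → ZMod 2)
    (u v w : Fin d → ZMod 2) :
    cont (step c a) (lay u v w) = (lay u v (fun k => a k +
      ∑ ij : Fin d × Fin d, c ij.1 ij.2 k * (u ij.2 * v ij.1))).reverse := by
  unfold step
  rw [cont_gates (u := u) (v := v) (w := a)]
  · simp only [Finset.sum_map_toList]
  · simp only [cont]
    rw [fwd_initb]

/-- Length of the word of gates. -/
theorem length_blk_append (gs gs' : List (List Ins)) :
    (blk (gs ++ gs')).length = (blk gs).length + (blk gs').length := by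
  induction gs with
  | nil => simp [blk]
  | cons g gs ih =>
      simp only [List.cons_append, blk, List.length_append, List.length_cons]
      rw [ih]; omega

theorem blk_append (gs gs' : List (List Ins)) : blk (gs ++ gs') = blk gs ++ blk gs' := by
  induction gs with
  | nil => rfl
  | cons g gs ih =>
      simp only [List.cons_append, blk]
      rw [ih]; simp

theorem length_blk {ℓ : ℕ} (gs : List (List Ins)) (hgs : ∀ g ∈ gs, g.length = ℓ) :
    (blk gs).length = gs.length * (ℓ + 1) := by
  induction gs with
  | nil => simp [blk]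
  | cons g gs ih =>
      simp only [blk, List.length_append, List.length_cons, List.length_map, List.length_reverse]
      rw [ih fun g' hg' => hgs g' (by simp [hg']), hgs g (by simp)]
      ring

theorem length_gates (c : Fin d → Fin d → Fin d → ZMod 2) (l : List (Fin d × Fin d)) :
    (gates c l).length = 2 * l.length := by
  induction l with
  | nil => rfl
  | cons ij l ih => simp only [gates, List.length_cons]; rw [ih]; ring

theorem mem_gates (c : Fin d → Fin d → Fin d → ZMod 2) (l : List (Fin d × Fin d)) :
    ∀ g ∈ gates c l, g.length = 3 * d := by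
  induction l with
  | nil => simp [gates]
  | cons ij l ih =>
      intro g hg
      simp only [gates, List.mem_cons] at hg
      rcases hg with h | h | h
      · rw [h]; exact length_pass _ _ _
      · rw [h]; exact length_pass _ _ _
      · exact ih g h

theorem mem_step (c : Fin d → Fin d → Fin d → ZMod 2) (a : Fin d → ZMod 2) :
    ∀ g ∈ step c a, g.length = 3 * d := by
  intro g hg
  unfold step at hg
  rcases List.mem_append.1 hg with h | h
  · exact mem_gates _ _ g h
  · rw [List.mem_singleton] at h
    rw [h]; exact length_pass _ _ _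

theorem length_step (c : Fin d → Fin d → Fin d → ZMod 2) (a : Fin d → ZMod 2) :
    (step c a).length = 2 * (d * d) + 1 := by
  unfold step
  rw [List.length_append, length_gates, Finset.length_toList, Finset.card_univ, Fintype.card_prod,
    Fintype.card_fin]
  rfl

/-- The reversed structure constants. -/
def crev (c : Fin d → Fin d → Fin d → ZMod 2) : Fin d → Fin d → Fin d → ZMod 2 :=
  fun i j k => c i.rev j.rev k.rev

/-- The bilinear map with structure constants `c`. -/
def bil (c : Fin d → Fin d → Fin d → ZMod 2) (v u : Fin d → ZMod 2) : Fin d → ZMod 2 :=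
  fun k => ∑ ij : Fin d × Fin d, c ij.1 ij.2 k * (u ij.2 * v ij.1)

/-- A macro: two steps. -/
noncomputable def mac (c : Fin d → Fin d → Fin d → ZMod 2) (a : Fin d → ZMod 2) :
    List (List Ins) :=
  step (crev c) (fun k => a k.rev) ++ step c 0

theorem cont_mac (c : Fin d → Fin d → Fin d → ZMod 2) (a : Fin d → ZMod 2)
    (u v w : Fin d → ZMod 2) :
    cont (mac c a) (lay u v w) = lay (fun k => a k + bil c v (bil c v u) k) v (bil c v u) := by
  unfold mac
  rw [cont_append, cont_step, reverse_lay, cont_step, reverse_lay]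
  have h1 : (fun k => (0 : Fin d → ZMod 2) k + ∑ ij : Fin d × Fin d,
      c ij.1 ij.2 k * (u ij.2 * v ij.1)) = bil c v u := by
    funext k; simp [bil]
  have h2 : ∀ k, (0 : Fin d → ZMod 2) k + ∑ ij : Fin d × Fin d,
      c ij.1 ij.2 k * (u ij.2 * v ij.1) = bil c v u k := fun k => congrFun h1 k
  simp only [h2, Fin.rev_rev]
  congr 1
  funext k
  congr 1
  unfold bil crev
  simp only [Fin.rev_rev]
  refine Fintype.sum_equiv (Equiv.prodCongr Fin.revPerm Fin.revPerm) _ _ ?_
  rintro ⟨i, j⟩
  simp

end Pool.Agent.H42.PEG
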