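import Mathlib

/-!
# The counting argument (chronogram method and cell sampling)
-/

set_option autoImplicit false

namespace Pool.Agent.H42.PEG

open scoped Classical

open Finset Polynomial

theorem poly_eq_of_agree {F : Type} [Field F] {m : ℕ} (V V' : Fin m → F)
    (S : Finset F) (hS : 2 * m < S.card)
    (h : ∀ x ∈ S, ∑ t, V t * x ^ (2 * t.1) = ∑ t, V' t * x ^ (2 * t.1)) : V = V' := by
  set p : F[X] := ∑ t : Fin m, Polynomial.C (V t - V' t) * Polynomial.X ^ (2 * t.1) with hp
  have hdeg : p.natDegree < S.card := by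
    refine lt_of_le_of_lt ?_ hS
    refine Polynomial.natDegree_sum_le_of_forall_le _ _ ?_
    intro t _
    refine (Polynomial.natDegree_C_mul_X_pow_le _ _).trans ?_
    have := t.2
    omega
  have hzero : p = 0 := by
    refine Polynomial.eq_zero_of_natDegree_lt_card_of_eval_eq_zero' p S ?_ hdeg
    intro x hx
    rw [hp, Polynomial.eval_finsetSum]
    have h1 := h x hx
    have h2 : ∀ t : Fin m, Polynomial.eval x (Polynomial.C (V t - V' t) * Polynomial.X ^ (2 * t.1))
        = V t * x ^ (2 * t.1) - V' t * x ^ (2 * t.1) := by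
      intro t
      simp [sub_mul]
    rw [Finset.sum_congr rfl fun t _ => h2 t, Finset.sum_sub_distrib, h1, sub_self]
  funext t
  have h3 : p.coeff (2 * t.1) = V t - V' t := by
    rw [hp, Polynomial.finsetSum_coeff]
    rw [Finset.sum_eq_single t]
    · rw [Polynomial.coeff_C_mul_X_pow, if_pos rfl]
    · intro t' _ ht'
      rw [Polynomial.coeff_C_mul_X_pow, if_neg]
      intro h4
      apply ht'
      apply Fin.ext
      omega
    · intro h4; exact absurd (Finset.mem_univ _) h4
  rw [hzero, Polynomial.coeff_zero] at h3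
  exact (sub_eq_zero.1 h3.symm)

theorem card_epoch_compl (m lo hi : ℕ) (hhi : hi ≤ m) (hlo : lo ≤ hi) :
    Fintype.card {t : Fin m // ¬ (lo ≤ t.1 ∧ t.1 < hi)} + (hi - lo) = m := by
  have h1 : Fintype.card {t : Fin m // (lo ≤ t.1 ∧ t.1 < hi)} = hi - lo := by
    rw [Fintype.card_subtype]
    have h2 : ((Finset.univ.filter fun t : Fin m => lo ≤ t.1 ∧ t.1 < hi).map
        Fin.valEmbedding) = Finset.Ico lo hi := by
      ext a
      simp only [Finset.mem_map, Finset.mem_filter, Finset.mem_univ, true_and,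
        Fin.valEmbedding_apply, Finset.mem_Ico]
      constructor
      · rintro ⟨t, ht, rfl⟩; exact ht
      · rintro ⟨ha, hb⟩
        exact ⟨⟨a, by omega⟩, ⟨ha, hb⟩, rfl⟩
    rw [← Finset.card_map Fin.valEmbedding, h2, Nat.card_Ico]
  have h3 := Fintype.card_subtype_compl (fun t : Fin m => lo ≤ t.1 ∧ t.1 < hi)
  rw [h1, Fintype.card_fin] at h3
  rw [h3]
  omega

/-- Existence of a covering function. -/
theorem exists_cover_fun {q m0 : ℕ} (hq : 0 < q) (B : Finset ℕ) (hB : ∀ b ∈ B, b < q)
    (hcard : B.card ≤ m0) : ∃ g : Fin m0 → Fin q, ∀ b ∈ B, ∃ j, (g j).1 = b := by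
  have hl : B.toList.length ≤ m0 := by rwa [Finset.length_toList]
  refine ⟨fun j => if h : j.1 < B.toList.length then
    ⟨B.toList[j.1], hB _ (Finset.mem_toList.1 (List.getElem_mem h))⟩ else ⟨0, hq⟩, ?_⟩
  intro b hb
  obtain ⟨j, hj, hjb⟩ := List.getElem_of_mem (Finset.mem_toList.2 hb)
  refine ⟨⟨j, lt_of_lt_of_le hj hl⟩, ?_⟩
  simp only [hj, dif_pos]
  exact hjb

/-- Some epoch has few visited offsets. -/
theorem exists_epoch {E m0 lam : ℕ} (hE : 0 < E) (b : ℕ → ℕ) (hb : Monotone b) (A : Finset ℕ)
    (hA : A.card ≤ E * m0) :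
    ∃ i < E, (A.filter fun p => lam * b i ≤ p ∧ p < lam * b (i + 1)).card ≤ m0 := by
  by_contra hcon
  push Not at hcon
  have h1 : ∑ i ∈ Finset.range E,
      (A.filter fun p => lam * b i ≤ p ∧ p < lam * b (i + 1)).card ≤ A.card := by
    rw [← Finset.card_biUnion]
    · refine Finset.card_le_card ?_
      intro p hp
      obtain ⟨i, _, hi⟩ := Finset.mem_biUnion.1 hp
      exact (Finset.mem_filter.1 hi).1
    · have key : ∀ i j, i < j → Disjoint
          (A.filter fun p => lam * b i ≤ p ∧ p < lam * b (i + 1))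
          (A.filter fun p => lam * b j ≤ p ∧ p < lam * b (j + 1)) := by
        intro i j hij
        rw [Finset.disjoint_left]
        intro p hp hq
        have h2 := (Finset.mem_filter.1 hp).2.2
        have h3 := (Finset.mem_filter.1 hq).2.1
        have h4 : b (i + 1) ≤ b j := hb hij
        have h5 : lam * b (i + 1) ≤ lam * b j := Nat.mul_le_mul_left _ h4
        omega
      intro i _ j _ hij
      rcases lt_or_gt_of_ne hij with h | h
      · exact key _ _ h
      · exact (key _ _ h).symm
  have h2 : ∑ i ∈ Finset.range E, (m0 + 1) ≤ ∑ i ∈ Finset.range E,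
      (A.filter fun p => lam * b i ≤ p ∧ p < lam * b (i + 1)).card := by
    refine Finset.sum_le_sum ?_
    intro i hi
    exact hcon i (Finset.mem_range.1 hi)
  rw [Finset.sum_const, Finset.card_range, smul_eq_mul] at h2
  have h3 : E * (m0 + 1) = E * m0 + E := by ring
  omega

/-- The counting theorem. -/
theorem counting {F Col : Type} [Field F] [Fintype F] [Fintype Col]
    (m E m0 lam q : ℕ) (b s : ℕ → ℕ) (hb : Monotone b) (hbm : b E ≤ m)
    (hs : ∀ i < E, 0 < s i ∧ lam * b (i + 1) ≤ q * s i) (hq : 0 < q) (hE : 0 < E)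
    (vis : (Fin m → F) → F → Finset ℕ) (hvis : ∀ V x, (vis V x).card ≤ E * m0)
    (col : (Fin m → F) → ℕ → Col)
    (htail : ∀ V V' : Fin m → F, ∀ T, (∀ t : Fin m, T ≤ t.1 → V t = V' t) →
      ∀ p, lam * T ≤ p → col V p = col V' p)
    (htrans : ∀ V V' : Fin m → F, ∀ x, (∀ p ∈ vis V x, col V p = col V' p) →
      ∑ t, V t * x ^ (2 * t.1) = ∑ t, V' t * x ^ (2 * t.1))
    (hnum1 : 2 * (E * q ^ m0) * (2 * m) ≤ Fintype.card F)
    (hnum2 : ∀ i < E, 2 * (E * q ^ m0) * (Fintype.card Col) ^ (lam * b i + m0 * s i) <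
      (Fintype.card F) ^ (b (i + 1) - b i)) : False := by
  -- covered pairs
  let cov : (Fin E × (Fin m0 → Fin q)) → (Fin m → F) → F → Prop := fun c V x =>
    ∀ p ∈ vis V x, lam * b c.1.1 ≤ p → p < lam * b (c.1.1 + 1) →
      ∃ j : Fin m0, ∃ r : Fin (s c.1.1), p = (c.2 j).1 * s c.1.1 + r.1
  -- every pair is covered by some class
  have hcov : ∀ Vx : (Fin m → F) × F, ∃ c, cov c Vx.1 Vx.2 := by
    rintro ⟨V, x⟩
    obtain ⟨i, hi, hcard⟩ := exists_epoch (lam := lam) hE b hb (vis V x) (hvis V x)
    obtain ⟨hs0, hs1⟩ := hs i hi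
    obtain ⟨g, hg⟩ := exists_cover_fun hq
      (((vis V x).filter fun p => lam * b i ≤ p ∧ p < lam * b (i + 1)).image fun p => p / s i)
      (by
        intro y hy
        obtain ⟨p, hp, rfl⟩ := Finset.mem_image.1 hy
        have := (Finset.mem_filter.1 hp).2.2
        rw [Nat.div_lt_iff_lt_mul hs0]
        omega) (Finset.card_image_le.trans hcard)
    refine ⟨(⟨i, hi⟩, g), ?_⟩
    intro p hp h1 h2
    obtain ⟨j, hj⟩ := hg (p / s i) (Finset.mem_image_of_mem _ (Finset.mem_filter.2 ⟨hp, h1, h2⟩))
    refine ⟨j, ⟨p % s i, Nat.mod_lt _ hs0⟩, ?_⟩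
    show p = (g j).1 * s i + p % s i
    rw [hj, mul_comm, Nat.div_add_mod]
  choose cls hcls using hcov
  -- the size of the set of rich V's
  have hrich : ∀ c : Fin E × (Fin m0 → Fin q),
      2 * (E * q ^ m0) * (Finset.univ.filter fun V : Fin m → F =>
        2 * m < (Finset.univ.filter fun x : F => cov c V x).card).card <
      (Fintype.card F) ^ m := by
    intro c
    obtain ⟨i, g⟩ := c
    set S := (Finset.univ.filter fun V : Fin m → F =>
        2 * m < (Finset.univ.filter fun x : F => cov (i, g) V x).card) with hSdef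
    have hbi : b i.1 ≤ b (i.1 + 1) := hb (Nat.le_succ _)
    have hbi' : b (i.1 + 1) ≤ m := (hb (Nat.succ_le_of_lt i.2)).trans hbm
    let code : (Fin m → F) → ({t : Fin m // ¬ (b i.1 ≤ t.1 ∧ t.1 < b (i.1 + 1))} → F) ×
        (Fin (lam * b i.1) → Col) × (Fin m0 × Fin (s i.1) → Col) := fun V =>
      (fun t => V t.1, fun p => col V p.1, fun jr => col V ((g jr.1).1 * s i.1 + jr.2.1))
    have hinj : Set.InjOn code (S : Set (Fin m → F)) := by
      intro V hV V' hV' hcode
      have hc1 : ∀ t : Fin m, ¬ (b i.1 ≤ t.1 ∧ t.1 < b (i.1 + 1)) → V t = V' t := by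
        intro t ht
        exact congrFun (congrArg Prod.fst hcode) ⟨t, ht⟩
      have hc2 : ∀ p, p < lam * b i.1 → col V p = col V' p := by
        intro p hp
        exact congrFun (congrArg (fun z => z.2.1) hcode) ⟨p, hp⟩
      have hc3 : ∀ (j : Fin m0) (r : Fin (s i.1)), col V ((g j).1 * s i.1 + r.1) =
          col V' ((g j).1 * s i.1 + r.1) := by
        intro j r
        exact congrFun (congrArg (fun z => z.2.2) hcode) (j, r)
      have hVr := (Finset.mem_filter.1 (Finset.mem_coe.1 hV)).2
      refine poly_eq_of_agree V V' _ hVr ?_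
      intro x hx
      have hx' : cov (i, g) V x := (Finset.mem_filter.1 hx).2
      refine htrans V V' x ?_
      intro p hp
      rcases lt_or_ge p (lam * b i.1) with h1 | h1
      · exact hc2 p h1
      · rcases lt_or_ge p (lam * b (i.1 + 1)) with h2 | h2
        · obtain ⟨j, r, hjr⟩ := hx' p hp h1 h2
          have h3 := hc3 j r
          have h4 : p = (g j).1 * s i.1 + r.1 := hjr
          rw [h4]; exact h3
        · refine htail V V' (b (i.1 + 1)) ?_ p h2
          intro t ht
          exact hc1 t (by omega)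
    have hcard : S.card ≤ Fintype.card (({t : Fin m // ¬ (b i.1 ≤ t.1 ∧ t.1 < b (i.1 + 1))} → F) ×
        (Fin (lam * b i.1) → Col) × (Fin m0 × Fin (s i.1) → Col)) := by
      rw [← Finset.card_univ]
      exact Finset.card_le_card_of_injOn code (fun _ _ => Finset.mem_coe.2 (Finset.mem_univ _)) hinj
    rw [Fintype.card_prod, Fintype.card_prod, Fintype.card_fun, Fintype.card_fun, Fintype.card_fun,
      Fintype.card_prod, Fintype.card_fin, Fintype.card_fin, Fintype.card_fin, ← pow_add] at hcard
    have hcc := card_epoch_compl m (b i.1) (b (i.1 + 1)) hbi' hbi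
    set u := Fintype.card {t : Fin m // ¬ (b i.1 ≤ t.1 ∧ t.1 < b (i.1 + 1))} with hu
    have hFpos : 0 < (Fintype.card F) ^ u := pow_pos Fintype.card_pos _
    calc 2 * (E * q ^ m0) * S.card
        ≤ 2 * (E * q ^ m0) * (Fintype.card F ^ u * Fintype.card Col ^ (lam * b i.1 + m0 * s i.1)) :=
          Nat.mul_le_mul_left _ hcard
      _ = Fintype.card F ^ u * (2 * (E * q ^ m0) *
            Fintype.card Col ^ (lam * b i.1 + m0 * s i.1)) := by ring
      _ < Fintype.card F ^ u * Fintype.card F ^ (b (i.1 + 1) - b i.1) :=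
          Nat.mul_lt_mul_of_pos_left (hnum2 i.1 i.2) hFpos
      _ = Fintype.card F ^ m := by rw [← pow_add, hcc]
  -- each class is small
  have hK : Fintype.card (Fin E × (Fin m0 → Fin q)) = E * q ^ m0 := by
    rw [Fintype.card_prod, Fintype.card_fun, Fintype.card_fin, Fintype.card_fin, Fintype.card_fin]
  have hKpos : 0 < E * q ^ m0 := Nat.mul_pos hE (pow_pos hq _)
  have hFpos : 0 < Fintype.card F := Fintype.card_pos
  have hclass : ∀ c : Fin E × (Fin m0 → Fin q),
      (E * q ^ m0) * (Finset.univ.filter fun Vx : (Fin m → F) × F => cls Vx = c).card <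
        (Fintype.card F) ^ m * Fintype.card F := by
    intro c
    set S := (Finset.univ.filter fun V : Fin m → F =>
        2 * m < (Finset.univ.filter fun x : F => cov c V x).card) with hSdef
    have hr := hrich c
    rw [← hSdef] at hr
    have h1 : (Finset.univ.filter fun Vx : (Fin m → F) × F => cls Vx = c).card ≤
        ∑ V : Fin m → F, (Finset.univ.filter fun x : F => cov c V x).card := by
      rw [← Finset.card_sigma]
      refine Finset.card_le_card_of_injOn (fun Vx => ⟨Vx.1, Vx.2⟩) ?_ ?_
      · intro Vx hVx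
        have h2 := (Finset.mem_filter.1 (Finset.mem_coe.1 hVx)).2
        rw [Finset.mem_coe, Finset.mem_sigma]
        refine ⟨Finset.mem_univ _, Finset.mem_filter.2 ⟨Finset.mem_univ _, ?_⟩⟩
        have h3 := hcls Vx
        rw [h2] at h3
        exact h3
      · intro Vx _ Vx' _ h
        have h1 : Vx.1 = Vx'.1 := congrArg Sigma.fst h
        have h2 : Vx.2 = Vx'.2 := by simpa using (Sigma.mk.inj_iff.1 h).2
        exact Prod.ext h1 h2
    have h2 : ∑ V : Fin m → F, (Finset.univ.filter fun x : F => cov c V x).card ≤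
        S.card * Fintype.card F + (Fintype.card F) ^ m * (2 * m) := by
      have h3 : ∀ V : Fin m → F, (Finset.univ.filter fun x : F => cov c V x).card ≤
          (if V ∈ S then Fintype.card F else 0) + 2 * m := by
        intro V
        by_cases hV : V ∈ S
        · rw [if_pos hV]
          have : (Finset.univ.filter fun x : F => cov c V x).card ≤ Fintype.card F := by
            rw [← Finset.card_univ]; exact Finset.card_filter_le _ _
          omega
        · rw [if_neg hV]
          have : ¬ (2 * m < (Finset.univ.filter fun x : F => cov c V x).card) := by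
            intro h; exact hV (Finset.mem_filter.2 ⟨Finset.mem_univ _, h⟩)
          omega
      refine (Finset.sum_le_sum fun V _ => h3 V).trans ?_
      rw [Finset.sum_add_distrib, Finset.sum_const, Finset.card_univ, Fintype.card_fun,
        Fintype.card_fin, smul_eq_mul, ← Finset.sum_filter, Finset.sum_const, smul_eq_mul]
      have h4 : (Finset.univ.filter fun V => V ∈ S) = S := by ext V; simp
      rw [h4]
    have h5 := h1.trans h2
    set A := (Finset.univ.filter fun Vx : (Fin m → F) × F => cls Vx = c).card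
    set K := E * q ^ m0
    set f := Fintype.card F
    have h6 : 2 * K * A ≤ (2 * K * S.card) * f + f ^ m * (2 * K * (2 * m)) := by
      calc 2 * K * A ≤ 2 * K * (S.card * f + f ^ m * (2 * m)) := Nat.mul_le_mul_left _ h5
        _ = _ := by ring
    have h7 : (2 * K * S.card) * f < f ^ m * f := Nat.mul_lt_mul_of_pos_right hr hFpos
    have h8 : f ^ m * (2 * K * (2 * m)) ≤ f ^ m * f := Nat.mul_le_mul_left _ hnum1
    have h9 : 2 * (K * A) = 2 * K * A := by ring
    omega
  -- total
  have htot : ∑ c : Fin E × (Fin m0 → Fin q),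
      (Finset.univ.filter fun Vx : (Fin m → F) × F => cls Vx = c).card =
      (Fintype.card F) ^ m * Fintype.card F := by
    rw [← Finset.card_eq_sum_card_fiberwise (f := cls) (s := Finset.univ) (t := Finset.univ)
      (fun _ _ => Finset.mem_coe.2 (Finset.mem_univ _)), Finset.card_univ, Fintype.card_prod, Fintype.card_fun,
      Fintype.card_fin]
  have hne : (Finset.univ : Finset (Fin E × (Fin m0 → Fin q))).Nonempty :=
    ⟨(⟨0, hE⟩, fun _ => ⟨0, hq⟩), Finset.mem_univ _⟩
  have h1 : ∑ c : Fin E × (Fin m0 → Fin q), (E * q ^ m0) *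
      (Finset.univ.filter fun Vx : (Fin m → F) × F => cls Vx = c).card <
      ∑ c : Fin E × (Fin m0 → Fin q), (Fintype.card F) ^ m * Fintype.card F :=
    Finset.sum_lt_sum_of_nonempty hne fun c _ => hclass c
  rw [← Finset.mul_sum, htot, Finset.sum_const, Finset.card_univ, hK, smul_eq_mul] at h1
  exact lt_irrefl _ h1

end Pool.Agent.H42.PEG
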