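import Pool.Agent.H42.PEG.Machine

/-!
# The second grammar and the concatenation
-/

set_option autoImplicit false

namespace Pool.Agent.H42.PEG

/-- Nonterminals of the second grammar. -/
inductive NT2 : Type
  | S | A
  deriving DecidableEq

instance : Fintype NT2 := ⟨{NT2.S, NT2.A}, by intro x; cases x <;> decide⟩

/-- The rules of the second grammar. -/
noncomputable def rules2 : NT2 → Exp NT2 Sym
  | NT2.S => Exp.alt (Exp.seq (Exp.term Sym.dollar) (Exp.nt NT2.A)) (Exp.neg anyE)
  | NT2.A => Exp.alt (Exp.seq anyE (Exp.nt NT2.A)) Exp.eps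

/-- The second grammar; its language consists of the empty word and the words starting with a
dollar. -/
noncomputable def G2 : Grammar NT2 Sym where
  rule := rules2
  start := NT2.S

theorem parses_A2 (w : List Sym) : Parses G2 (Exp.nt NT2.A) w (some []) := by
  induction w with
  | nil =>
      exact Parses.nt _ _ _ (Parses.alt_right _ _ _ _ (Parses.seq_fail _ _ _ anyE_nil)
        (Parses.eps _))
  | cons c w ih =>
      exact Parses.nt _ _ _ (Parses.alt_left _ _ _ _ (Parses.seq_ok _ _ _ _ _ (anyE_cons _ _) ih))

theorem mem_G2_iff (w : List Sym) : w ∈ G2.lang ↔ w = [] ∨ ∃ v, w = Sym.dollar :: v := by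
  constructor
  · intro hm
    cases w with
    | nil => exact Or.inl rfl
    | cons c w =>
        right
        by_cases hc : c = Sym.dollar
        · exact ⟨w, by rw [hc]⟩
        · exfalso
          have h1 : Parses G2 (Exp.nt NT2.S) (c :: w) none := by
            refine Parses.nt _ _ _ ?_
            exact Parses.alt_right _ _ _ _ (Parses.seq_fail _ _ _ (term_none _ (Ne.symm hc)))
              (Parses.neg_fail _ _ _ (anyE_cons _ _))
          have := h1.det hm
          cases this
  · rintro (h | ⟨v, h⟩)
    · subst h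
      refine Parses.nt _ _ _ ?_
      exact Parses.alt_right _ _ _ _ (Parses.seq_fail _ _ _ (term_nil _))
        (Parses.neg_ok _ _ anyE_nil)
    · subst h
      refine Parses.nt _ _ _ ?_
      exact Parses.alt_left _ _ _ _ (Parses.seq_ok _ _ _ _ _ (Parses.term_ok _ _) (parses_A2 _))

theorem split_one {u v pre R : List Sym} (hp : Sym.dollar ∉ pre)
    (h : u ++ Sym.dollar :: v = pre ++ Sym.dollar :: R) :
    u = pre ∨ ∃ u', u = pre ++ Sym.dollar :: u' ∧ u' ++ Sym.dollar :: v = R := by
  induction pre generalizing u with
  | nil =>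
      cases u with
      | nil => exact Or.inl rfl
      | cons c u =>
          right
          rw [List.cons_append, List.nil_append] at h
          injection h with h1 h2
          exact ⟨u, by rw [h1]; rfl, h2⟩
  | cons a pre ih =>
      cases u with
      | nil =>
          exfalso
          rw [List.nil_append, List.cons_append] at h
          injection h with h1 h2
          exact hp (by simp [h1])
      | cons c u =>
          rw [List.cons_append, List.cons_append] at h
          injection h with h1 h2
          rcases ih (fun h' => hp (List.mem_cons_of_mem _ h')) h2 with h3 | ⟨u', h3, h4⟩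
          · left; rw [h1, h3]
          · right; exact ⟨u', by rw [h1, h3]; rfl, h4⟩

theorem dollar_not_mem_bits (h : List (ZMod 2)) : Sym.dollar ∉ h.map Sym.bit := by
  intro hm
  obtain ⟨b, _, hb⟩ := List.mem_map.1 hm
  cases hb

theorem split_HW (hs : List (List (ZMod 2))) : ∀ (pre : List Sym) (h : List (ZMod 2))
    (u v : List Sym), Sym.dollar ∉ pre → u ++ Sym.dollar :: v = pre ++ HW h hs →
    ∃ hs', hs' <+: hs ∧ u = pre ++ HW h hs' := by
  induction hs with
  | nil =>
      intro pre h u v hp he
      exfalso
      have h1 : Sym.dollar ∈ pre ++ HW h [] := by rw [← he]; simp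
      rcases List.mem_append.1 h1 with h2 | h2
      · exact hp h2
      · exact dollar_not_mem_bits h h2
  | cons h' hs ih =>
      intro pre h u v hp he
      have hp' : Sym.dollar ∉ pre ++ h.map Sym.bit := by
        intro hm
        rcases List.mem_append.1 hm with h2 | h2
        · exact hp h2
        · exact dollar_not_mem_bits h h2
      have he' : u ++ Sym.dollar :: v = (pre ++ h.map Sym.bit) ++ Sym.dollar :: HW h' hs := by
        rw [he, HW, List.append_assoc]
      rcases split_one hp' he' with h1 | ⟨u', h1, h2⟩
      · exact ⟨[], List.nil_prefix, h1⟩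
      · obtain ⟨hs', h3, h4⟩ := ih [] h' u' v (by simp) (by simpa using h2)
        refine ⟨h' :: hs', ?_, ?_⟩
        · obtain ⟨r, hr⟩ := h3
          exact ⟨r, by rw [← hr]; rfl⟩
        · rw [h1, h4, List.append_assoc]
          rfl

theorem lastHint_mem (h : List (ZMod 2)) (hs : List (List (ZMod 2))) :
    lastHint h hs ∈ h :: hs := by
  induction hs generalizing h with
  | nil => simp [lastHint]
  | cons h' hs ih => exact List.mem_cons_of_mem _ (ih h')

theorem exists_split (hs : List (List (ZMod 2))) : ∀ (h k : List (ZMod 2)), k ∈ h :: hs →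
    ∃ hs', hs' <+: hs ∧ lastHint h hs' = k ∧ ∃ v, (v = [] ∨ ∃ v', v = Sym.dollar :: v') ∧
      HW h hs = HW h hs' ++ v := by
  induction hs with
  | nil =>
      intro h k hk
      rw [List.mem_singleton] at hk
      exact ⟨[], List.nil_prefix, hk.symm, [], Or.inl rfl, by simp⟩
  | cons h' hs ih =>
      intro h k hk
      rcases List.mem_cons.1 hk with h1 | h1
      · refine ⟨[], List.nil_prefix, h1.symm, Sym.dollar :: HW h' hs, Or.inr ⟨_, rfl⟩, rfl⟩
      · obtain ⟨hs', ⟨r, hr⟩, h3, v, h4, h5⟩ := ih h' k h1
        refine ⟨h' :: hs', ⟨r, by rw [← hr]; rfl⟩, h3, v, h4, ?_⟩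
        simp only [HW]
        rw [h5]
        simp

theorem dollar_not_mem_blk (gs : List (List Ins)) : Sym.dollar ∉ blk gs := by
  induction gs with
  | nil => simp [blk]
  | cons g gs ih =>
      simp only [blk]
      intro hm
      rcases List.mem_append.1 hm with h | h
      · obtain ⟨b, _, hb⟩ := List.mem_map.1 h
        cases hb
      · rcases List.mem_cons.1 h with h | h
        · cases h
        · exact ih h

/-- Membership of structured words in the concatenation. -/
theorem mem_mul_iff {ℓ : ℕ} (gs : List (List Ins)) (hgs : ∀ g ∈ gs, g.length = ℓ)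
    (h : List (ZMod 2)) (hs : List (List (ZMod 2))) (hh : ∀ k ∈ h :: hs, k.length = ℓ)
    (y : List (ZMod 2)) (hy : y.length ≤ ℓ) :
    (y.map Sym.bit ++ [Sym.hash]) ++ (blk gs ++ HW h hs) ∈ G1.lang * G2.lang ↔
      ∃ k ∈ h :: hs, y.reverse = (cont gs k).take y.length := by
  have hassoc : ∀ R : List Sym, (y.map Sym.bit ++ [Sym.hash]) ++ (blk gs ++ R) =
      (y.map Sym.bit ++ Sym.hash :: blk gs) ++ R := by
    intro R; simp
  have hassoc2 : ∀ R : List Sym, (y.map Sym.bit ++ Sym.hash :: blk gs) ++ R =
      y.map Sym.bit ++ Sym.hash :: (blk gs ++ R) := by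
    intro R; simp
  rw [hassoc, Language.mem_mul]
  constructor
  · rintro ⟨u, hu, v, hv, huv⟩
    rcases (mem_G2_iff v).1 hv with h1 | ⟨v', h1⟩
    · subst h1
      rw [List.append_nil] at huv
      rw [huv, hassoc2, mem_G1_iff gs hgs h hs (hh _ (lastHint_mem h hs)) y hy] at hu
      exact ⟨_, lastHint_mem h hs, hu⟩
    · subst h1
      obtain ⟨hs', ⟨r, hr⟩, h3⟩ := split_HW hs (y.map Sym.bit ++ Sym.hash :: blk gs) h u v' (by
        intro hm
        rcases List.mem_append.1 hm with h2 | h2
        · exact dollar_not_mem_bits y h2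
        · rcases List.mem_cons.1 h2 with h2 | h2
          · cases h2
          · exact dollar_not_mem_blk gs h2) huv
      have h4 : lastHint h hs' ∈ h :: hs := by
        have h5 := lastHint_mem h hs'
        rw [← hr]
        rcases List.mem_cons.1 h5 with h6 | h6
        · rw [h6]; exact List.mem_cons_self
        · exact List.mem_cons_of_mem _ (List.mem_append_left _ h6)
      rw [h3, hassoc2, mem_G1_iff gs hgs h hs' (hh _ h4) y hy] at hu
      exact ⟨_, h4, hu⟩
  · rintro ⟨k, hk, hyk⟩
    obtain ⟨hs', _, h2, v, hv, h3⟩ := exists_split hs h k hk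
    refine ⟨(y.map Sym.bit ++ Sym.hash :: blk gs) ++ HW h hs', ?_, v, (mem_G2_iff v).2 hv, ?_⟩
    · rw [hassoc2, mem_G1_iff gs hgs h hs' (by rw [h2]; exact hh k hk) y hy, h2]
      exact hyk
    · rw [h3, List.append_assoc]

end Pool.Agent.H42.PEG
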