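import Pool.Agent.H42.PEG.Circuit
import Pool.Agent.H42.PEG.Split

/-!
# Words encoding polynomial evaluation over a finite field
-/

set_option autoImplicit false
set_option linter.unusedSectionVars false

namespace Pool.Agent.H42.PEG

variable {d : ℕ} {F : Type} [Field F] [Fintype F] [Algebra (ZMod 2) F]

/-- Structure constants. -/
noncomputable def cst (bs : Module.Basis (Fin d) (ZMod 2) F) : Fin d → Fin d → Fin d → ZMod 2 :=
  fun i j k => bs.repr (bs i * bs j) k

/-- Coordinates. -/
noncomputable def bits (bs : Module.Basis (Fin d) (ZMod 2) F) (x : F) : Fin d → ZMod 2 :=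
  fun k => bs.repr x k

theorem bits_injective (bs : Module.Basis (Fin d) (ZMod 2) F) :
    Function.Injective (bits bs) := by
  intro x y h
  apply bs.repr.injective
  ext k
  exact congrFun h k

theorem bits_add (bs : Module.Basis (Fin d) (ZMod 2) F) (x y : F) :
    bits bs (x + y) = fun k => bits bs x k + bits bs y k := by
  funext k
  simp [bits]

theorem bits_zero (bs : Module.Basis (Fin d) (ZMod 2) F) : bits bs 0 = fun _ => 0 := by
  funext k
  simp [bits]

theorem bil_bits (bs : Module.Basis (Fin d) (ZMod 2) F) (v u : F) :
    bil (cst bs) (bits bs v) (bits bs u) = bits bs (v * u) := by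
  funext k
  have hv := bs.sum_repr v
  have hu := bs.sum_repr u
  have h1 : v * u = ∑ i, ∑ j, (bs.repr v i * bs.repr u j) • (bs i * bs j) := by
    conv_lhs => rw [← hv, ← hu]
    rw [Finset.sum_mul_sum]
    refine Finset.sum_congr rfl fun i _ => Finset.sum_congr rfl fun j _ => ?_
    rw [smul_mul_smul_comm]
  unfold bits bil
  rw [h1]
  simp only [map_sum, map_smul, Finsupp.coe_finsetSum, Finset.sum_apply, Finsupp.smul_apply,
    smul_eq_mul]
  rw [Fintype.sum_prod_type]
  refine Finset.sum_congr rfl fun i _ => Finset.sum_congr rfl fun j _ => ?_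
  unfold cst
  ring

/-- The blocks for a list of coefficients. -/
noncomputable def mps (bs : Module.Basis (Fin d) (ZMod 2) F) : List F → List (List Ins)
  | [] => []
  | a :: as => mac (cst bs) (bits bs a) ++ mps bs as

/-- The evaluation. -/
def ev : List F → F → F
  | [], _ => 0
  | a :: as, x => a + x ^ 2 * ev as x

theorem ev_ofFn {m : ℕ} (V : Fin m → F) (x : F) :
    ev (List.ofFn V) x = ∑ t, V t * x ^ (2 * t.1) := by
  induction m with
  | zero => simp [ev]
  | succ m ih =>
      rw [List.ofFn_succ, Fin.sum_univ_succ]
      simp only [ev]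
      rw [ih, Finset.mul_sum]
      simp only [Fin.val_zero, mul_zero, pow_zero, mul_one, Fin.val_succ]
      congr 1
      refine Finset.sum_congr rfl fun t _ => ?_
      ring

/-- The hint for `x`. -/
noncomputable def hint (bs : Module.Basis (Fin d) (ZMod 2) F) (x : F) : List (ZMod 2) :=
  lay (bits bs 0) (bits bs x) (bits bs 0)

theorem cont_mps (bs : Module.Basis (Fin d) (ZMod 2) F) (vs : List F) (x : F) :
    ∃ w, cont (mps bs vs) (hint bs x) = lay (bits bs (ev vs x)) (bits bs x) w := by
  induction vs with
  | nil => exact ⟨_, rfl⟩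
  | cons a as ih =>
      obtain ⟨w, hw⟩ := ih
      refine ⟨bil (cst bs) (bits bs x) (bits bs (ev as x)), ?_⟩
      simp only [mps, ev]
      rw [cont_append, hw, cont_mac, bil_bits, bil_bits, bits_add]
      have : x ^ 2 * ev as x = x * (x * ev as x) := by ring
      rw [this]

theorem mem_mps (bs : Module.Basis (Fin d) (ZMod 2) F) (vs : List F) :
    ∀ g ∈ mps bs vs, g.length = 3 * d := by
  induction vs with
  | nil => simp [mps]
  | cons a as ih =>
      intro g hg
      simp only [mps] at hg
      rcases List.mem_append.1 hg with h | h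
      · unfold mac at h
        rcases List.mem_append.1 h with h | h
        · exact mem_step _ _ g h
        · exact mem_step _ _ g h
      · exact ih g h

/-- The length of a macro. -/
def lamb (d : ℕ) : ℕ := (2 * (2 * (d * d) + 1)) * (3 * d + 1)

theorem length_blk_mac (c : Fin d → Fin d → Fin d → ZMod 2) (a : Fin d → ZMod 2) :
    (blk (mac c a)).length = lamb d := by
  unfold mac
  rw [length_blk_append, length_blk _ (mem_step _ _), length_blk _ (mem_step _ _),
    length_step, length_step]
  unfold lamb
  ring

theorem length_blk_mps (bs : Module.Basis (Fin d) (ZMod 2) F) (vs : List F) :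
    (blk (mps bs vs)).length = vs.length * lamb d := by
  induction vs with
  | nil => simp [mps, blk]
  | cons a as ih =>
      simp only [mps]
      rw [length_blk_append, length_blk_mac, ih, List.length_cons]
      ring

theorem length_HW {ℓ : ℕ} (h : List (ZMod 2)) (hs : List (List (ZMod 2)))
    (hh : ∀ k ∈ h :: hs, k.length = ℓ) :
    (HW h hs).length = (hs.length + 1) * ℓ + hs.length := by
  induction hs generalizing h with
  | nil => simp [HW, hh h (by simp)]
  | cons h' hs ih =>
      simp only [HW, List.length_append, List.length_cons, List.length_map]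
      rw [ih h' fun k hk => hh k (List.mem_cons_of_mem _ hk), hh h (by simp)]
      ring

/-- The word of all hints. -/
noncomputable def hints (bs : Module.Basis (Fin d) (ZMod 2) F) : List Sym :=
  HW (hint bs 0) ((Finset.univ : Finset F).toList.map (hint bs))

theorem length_hint (bs : Module.Basis (Fin d) (ZMod 2) F) (x : F) :
    (hint bs x).length = 3 * d := length_lay _ _ _

theorem hints_len (bs : Module.Basis (Fin d) (ZMod 2) F) :
    ∀ k ∈ hint bs 0 :: (Finset.univ : Finset F).toList.map (hint bs), k.length = 3 * d := by
  intro k hk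
  rcases List.mem_cons.1 hk with h | h
  · rw [h]; exact length_hint _ _
  · obtain ⟨x, _, rfl⟩ := List.mem_map.1 h
    exact length_hint _ _

theorem length_hints (bs : Module.Basis (Fin d) (ZMod 2) F) :
    (hints bs).length = (Fintype.card F + 1) * (3 * d) + Fintype.card F := by
  unfold hints
  rw [length_HW _ _ (hints_len bs), List.length_map, Finset.length_toList, Finset.card_univ]

/-- The main word. -/
noncomputable def W (bs : Module.Basis (Fin d) (ZMod 2) F) {m : ℕ} (V : Fin m → F) : List Sym :=
  blk (mps bs (List.ofFn V)) ++ hints bs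

theorem length_W (bs : Module.Basis (Fin d) (ZMod 2) F) {m : ℕ} (V : Fin m → F) :
    (W bs V).length = m * lamb d + ((Fintype.card F + 1) * (3 * d) + Fintype.card F) := by
  unfold W
  rw [List.length_append, length_blk_mps, length_hints, List.length_ofFn]

theorem drop_blk_mps (bs : Module.Basis (Fin d) (ZMod 2) F) (H : List Sym) (T : ℕ) :
    ∀ vs vs' : List F, vs.length = vs'.length → vs.drop T = vs'.drop T →
      (blk (mps bs vs) ++ H).drop (lamb d * T) = (blk (mps bs vs') ++ H).drop (lamb d * T) := by
  induction T with
  | zero =>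
      intro vs vs' _ h
      rw [List.drop_zero, List.drop_zero] at h
      rw [h]
  | succ T ih =>
      intro vs vs' hl h
      cases vs with
      | nil =>
          cases vs' with
          | nil => rfl
          | cons a' as' => simp at hl
      | cons a as =>
          cases vs' with
          | nil => simp at hl
          | cons a' as' =>
              have h1 : as.drop T = as'.drop T := by simpa using h
              have h2 := ih as as' (by simpa using hl) h1
              have key : ∀ (a : F) (as : List F), (blk (mps bs (a :: as)) ++ H).drop (lamb d * (T + 1)) =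
                  (blk (mps bs as) ++ H).drop (lamb d * T) := by
                intro a as
                simp only [mps]
                rw [blk_append, List.append_assoc, Nat.mul_succ, Nat.add_comm, ← List.drop_drop]
                have h3 : (blk (mac (cst bs) (bits bs a)) ++ (blk (mps bs as) ++ H)).drop (lamb d) =
                    blk (mps bs as) ++ H := by
                  rw [← length_blk_mac (cst bs) (bits bs a), List.drop_left]
                rw [h3]
              rw [key, key]
              exact h2

theorem drop_W (bs : Module.Basis (Fin d) (ZMod 2) F) {m : ℕ} (V V' : Fin m → F) (T : ℕ)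
    (h : ∀ t : Fin m, T ≤ t.1 → V t = V' t) (p : ℕ) (hp : lamb d * T ≤ p) :
    (W bs V).drop p = (W bs V').drop p := by
  have h1 : (List.ofFn V).drop T = (List.ofFn V').drop T := by
    refine List.ext_getElem (by simp) ?_
    intro i h1 h2
    rw [List.getElem_drop, List.getElem_drop, List.getElem_ofFn, List.getElem_ofFn]
    exact h _ (Nat.le_add_right _ _)
  have h2 := drop_blk_mps bs (hints bs) T _ _ (by simp) h1
  obtain ⟨r, rfl⟩ := Nat.exists_eq_add_of_le hp
  have h3 : ∀ l : List Sym, l.drop (lamb d * T + r) = (l.drop (lamb d * T)).drop r := by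
    intro l; rw [List.drop_drop]
  unfold W
  rw [h3, h3, h2]

/-- The query. -/
noncomputable def qy (bs : Module.Basis (Fin d) (ZMod 2) F) (x z : F) : List (ZMod 2) :=
  (List.ofFn (bits bs z) ++ List.ofFn (bits bs x)).reverse

theorem length_qy (bs : Module.Basis (Fin d) (ZMod 2) F) (x z : F) :
    (qy bs x z).length = 2 * d := by
  simp [qy]; omega

theorem mem_W_iff (bs : Module.Basis (Fin d) (ZMod 2) F) {m : ℕ} (V : Fin m → F) (x z : F) :
    ((qy bs x z).map Sym.bit ++ [Sym.hash]) ++ W bs V ∈ G1.lang * G2.lang ↔
      z = ∑ t, V t * x ^ (2 * t.1) := by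
  unfold W hints
  rw [mem_mul_iff _ (mem_mps bs _) _ _ (hints_len bs) _ (by rw [length_qy]; omega), length_qy,
    ← ev_ofFn]
  have key : ∀ x' : F, ((qy bs x z).reverse =
      (cont (mps bs (List.ofFn V)) (hint bs x')).take (2 * d) ↔
      z = ev (List.ofFn V) x' ∧ x = x') := by
    intro x'
    obtain ⟨w, hw⟩ := cont_mps bs (List.ofFn V) x'
    rw [hw]
    unfold qy lay
    rw [List.reverse_reverse, ← List.append_assoc]
    have h1 : 2 * d = (List.ofFn (bits bs (ev (List.ofFn V) x')) ++ List.ofFn (bits bs x')).length := by
      simp; omega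
    rw [h1, List.take_left]
    constructor
    · intro h
      obtain ⟨h2, h3⟩ := List.append_inj h (by simp)
      exact ⟨bits_injective bs (List.ofFn_injective h2), bits_injective bs (List.ofFn_injective h3)⟩
    · rintro ⟨rfl, rfl⟩
      rfl
  constructor
  · rintro ⟨k, hk, h⟩
    have : ∃ x', k = hint bs x' := by
      rcases List.mem_cons.1 hk with h1 | h1
      · exact ⟨_, h1⟩
      · obtain ⟨x', _, h2⟩ := List.mem_map.1 h1
        exact ⟨x', h2.symm⟩
    obtain ⟨x', rfl⟩ := this
    obtain ⟨h1, h2⟩ := (key x').1 h
    rw [h2]; exact h1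
  · intro h
    refine ⟨hint bs x, List.mem_cons_of_mem _ (List.mem_map.2 ⟨x, ?_, rfl⟩), (key x).2 ⟨h, rfl⟩⟩
    exact Finset.mem_toList.2 (Finset.mem_univ _)

end Pool.Agent.H42.PEG
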