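import Pool.Agent.H42.PEG.FieldW
import Pool.Agent.H42.PEG.Count

/-!
# The concatenation is not a parsing expression language
-/

set_option autoImplicit false

namespace Pool.Agent.H42.PEG

theorem num_lamb (h : ℕ) : lamb (4 * (2 ^ h * 2 ^ h)) ≤ 2 ^ (6 * h + 11) := by
  have h1 : (2 : ℕ) ^ (6 * h + 11) = 2048 * (2 ^ h) ^ 6 := by
    rw [pow_add, ← pow_mul]
    have : h * 6 = 6 * h := by ring
    rw [this]; norm_num; ring
  rw [h1]
  have hx : 1 ≤ 2 ^ h := Nat.one_le_two_pow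
  generalize 2 ^ h = x at hx
  unfold lamb
  have h2 : 1 ≤ x ^ 6 := Nat.one_le_pow _ _ hx
  have h3 : x ^ 2 ≤ x ^ 6 := Nat.pow_le_pow_right hx (by norm_num)
  have h4 : x ^ 4 ≤ x ^ 6 := Nat.pow_le_pow_right hx (by norm_num)
  have h5 : 2 * (2 * (4 * (x * x) * (4 * (x * x))) + 1) * (3 * (4 * (x * x)) + 1) =
      768 * x ^ 6 + 64 * x ^ 4 + 24 * x ^ 2 + 2 := by ring
  rw [h5]
  omega

theorem num_basic (k : ℕ) :
    9 * k * (16 * k + 159) ≤ 2 ^ (2 * k + 20) ∧ 13 * k + 135 ≤ 2 ^ (2 * k + 20) ∧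
    28 + 4 * k ≤ 2 ^ (2 * k + 20) := by
  have h1 : (2 : ℕ) ^ (2 * k + 20) = 1048576 * (2 ^ k * 2 ^ k) := by
    rw [pow_add, two_mul, pow_add]; norm_num; ring
  rw [h1]
  have h2 : k < 2 ^ k := Nat.lt_two_pow_self
  have h3 : 1 ≤ 2 ^ k := Nat.one_le_two_pow
  generalize 2 ^ k = P at h2 h3
  refine ⟨?_, ?_, ?_⟩ <;> nlinarith

theorem num_exp {D k lam g d Bi B s : ℕ} (hD : 2 ≤ D) (hd : d = 4 * (D * D))
    (h1 : 16 * k * lam ≤ 2 ^ D) (h2 : 144 * (k * k) * D ≤ 2 ^ g) (hBi : 1 ≤ Bi)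
    (hB : B = Bi * 2 ^ D) (hs : s * 2 ^ g = B) :
    1 + D + D * D + 2 * d * k * (lam * Bi + 9 * k * D * s) < d * (B - Bi) := by
  have h4 : 4 ≤ 2 ^ D := by
    calc 4 = 2 ^ 2 := by norm_num
      _ ≤ 2 ^ D := Nat.pow_le_pow_right (by norm_num) hD
  have ha : 16 * k * lam * Bi ≤ B := by
    rw [hB]; calc 16 * k * lam * Bi ≤ 2 ^ D * Bi := Nat.mul_le_mul_right _ h1
      _ = Bi * 2 ^ D := by ring
  have hb : 144 * (k * k) * D * s ≤ B := by
    rw [← hs]; calc 144 * (k * k) * D * s ≤ 2 ^ g * s := Nat.mul_le_mul_right _ h2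
      _ = s * 2 ^ g := by ring
  have hc : 4 * Bi ≤ B := by
    rw [hB]; calc 4 * Bi ≤ 2 ^ D * Bi := Nat.mul_le_mul_right _ h4
      _ = Bi * 2 ^ D := by ring
  have hB4 : 4 ≤ B := by omega
  have hDD : D + 1 ≤ D * D := by nlinarith
  have hda : d * (16 * k * lam * Bi) ≤ d * B := Nat.mul_le_mul_left _ ha
  have hdb : d * (144 * (k * k) * D * s) ≤ d * B := Nat.mul_le_mul_left _ hb
  have hdc : d * (4 * Bi) ≤ d * B := Nat.mul_le_mul_left _ hc
  have hdd : d * 4 ≤ d * B := Nat.mul_le_mul_left _ hB4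
  have hdpos : 0 < d := by rw [hd]; positivity
  have hdB : 0 < d * B := Nat.mul_pos hdpos (by omega)
  have e1 : 8 * (2 * d * k * (lam * Bi + 9 * k * D * s)) =
      d * (16 * k * lam * Bi) + d * (144 * (k * k) * D * s) := by ring
  have e2 : d * (B - Bi) = d * B - d * Bi := Nat.mul_sub _ _ _
  have e3 : d * (4 * Bi) = 4 * (d * Bi) := by ring
  have e4 : 16 * (D * D) = d * 4 := by rw [hd]; ring
  rw [e2]
  omega

theorem num_len {D d lam : ℕ} (hD : 2 ≤ D) (hd : d = 4 * (D * D)) (hlam : lam ≤ 2 ^ D) :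
    2 ^ (D * D) * lam + ((2 ^ d + 1) * (3 * d) + 2 ^ d) + 3 ≤ 2 ^ (2 * d) := by
  have h1 : 2 ^ (D * D) * lam ≤ 2 ^ d := by
    calc 2 ^ (D * D) * lam ≤ 2 ^ (D * D) * 2 ^ D := Nat.mul_le_mul_left _ hlam
      _ = 2 ^ (D * D + D) := by rw [pow_add]
      _ ≤ 2 ^ d := by
          refine Nat.pow_le_pow_right (by norm_num) ?_
          rw [hd]; nlinarith
  have hd16 : 16 ≤ d := by rw [hd]; nlinarith
  have h2 : 6 * d + 6 ≤ 2 ^ d := by
    have : ∀ n : ℕ, 16 ≤ n → 6 * n + 6 ≤ 2 ^ n := by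
      intro n hn
      induction n, hn using Nat.le_induction with
      | base => norm_num
      | succ n hn ih => rw [pow_succ]; omega
    exact this d hd16
  have h3 : 2 ^ (2 * d) = 2 ^ d * 2 ^ d := by rw [two_mul, pow_add]
  rw [h3]
  have h4 : 1 ≤ 2 ^ d := Nat.one_le_two_pow
  generalize 2 ^ d = X at *
  nlinarith

/-- The concatenation of the two languages is not a parsing expression language. -/
theorem not_isPEL_mul : ¬ IsPEL (G1.lang * G2.lang) := by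
  classical
  rintro ⟨N, hN, G, hG⟩
  obtain ⟨E, hE, hS⟩ := exists_closed G
  obtain ⟨k, hk⟩ : ∃ k, k = E.card := ⟨_, rfl⟩
  obtain ⟨hn1, hn2, hn3⟩ := num_basic k
  obtain ⟨h, hh⟩ : ∃ h, h = 2 * k + 20 := ⟨_, rfl⟩
  rw [← hh] at hn1 hn2 hn3
  obtain ⟨D, hD⟩ : ∃ D, D = 2 ^ h := ⟨_, rfl⟩
  rw [← hD] at hn1 hn2 hn3
  obtain ⟨d, hd⟩ : ∃ d, d = 4 * (D * D) := ⟨_, rfl⟩
  obtain ⟨g, hg⟩ : ∃ g, g = 28 + 4 * k := ⟨_, rfl⟩
  rw [← hg] at hn3
  have hD2 : 2 ≤ D := by omega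
  have hd0 : d ≠ 0 := by rw [hd]; positivity
  have hlam : lamb d ≤ 2 ^ (6 * h + 11) := by rw [hd, hD]; exact num_lamb h
  have hlamD : lamb d ≤ 2 ^ D := hlam.trans (Nat.pow_le_pow_right (by norm_num) (by omega))
  have hlam16 : 16 * k * lamb d ≤ 2 ^ D := by
    calc 16 * k * lamb d ≤ 16 * 2 ^ k * 2 ^ (6 * h + 11) :=
          Nat.mul_le_mul (Nat.mul_le_mul_left _ (Nat.lt_two_pow_self).le) hlam
      _ = 2 ^ (4 + k + (6 * h + 11)) := by rw [pow_add 2 (4 + k), pow_add 2 4 k]; norm_num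
      _ ≤ 2 ^ D := Nat.pow_le_pow_right (by norm_num) (by omega)
  have hg2 : 144 * (k * k) * D ≤ 2 ^ g := by
    have hkk : k * k ≤ 2 ^ k * 2 ^ k :=
      Nat.mul_le_mul (Nat.lt_two_pow_self).le (Nat.lt_two_pow_self).le
    calc 144 * (k * k) * D ≤ 2 ^ 8 * (2 ^ k * 2 ^ k) * 2 ^ h := by
          rw [hD]
          exact Nat.mul_le_mul_right _ (Nat.mul_le_mul (by norm_num) hkk)
      _ = 2 ^ (8 + (k + k) + h) := by rw [pow_add, pow_add, pow_add]
      _ ≤ 2 ^ g := Nat.pow_le_pow_right (by norm_num) (by omega)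
  have hlampos : 0 < lamb d := by unfold lamb; positivity
  -- the field
  let F := GaloisField 2 d
  let _ : Fintype F := Fintype.ofFinite F
  have hcard : Fintype.card F = 2 ^ d := by
    rw [← Nat.card_eq_fintype_card]; exact GaloisField.card 2 d hd0
  let bs : Module.Basis (Fin d) (ZMod 2) F :=
    Module.finBasisOfFinrankEq (ZMod 2) F (GaloisField.finrank 2 hd0)
  obtain ⟨n, hn⟩ : ∃ n, n = 2 ^ (D * D) * lamb d + ((Fintype.card F + 1) * (3 * d) + Fintype.card F) :=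
    ⟨_, rfl⟩
  have hlenW : ∀ V : Fin (2 ^ (D * D)) → F, (W bs V).length = n := fun V => by
    rw [length_W, hn]
  have hn3' : n + 3 ≤ 2 ^ (2 * d) := by
    rw [hn, hcard]; exact num_len hD2 hd hlamD
  let u : F → F → List Sym := fun x z => (qy bs x z).map Sym.bit ++ [Sym.hash]
  have hu : ∀ x z, u x z ≠ [] := by intro x z; simp [u]
  have hulen : ∀ x z, (u x z).length = 2 * d + 1 := by
    intro x z; simp [u, length_qy]
  let P : (Fin (2 ^ (D * D)) → F) → F → F := fun V x => ∑ t, V t * x ^ (2 * t.1)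
  have hmem : ∀ V x z, u x z ++ W bs V ∈ G.lang ↔ z = P V x := by
    intro V x z
    rw [hG]
    exact mem_W_iff bs V x z
  let col : (Fin (2 ^ (D * D)) → F) → ℕ → ({e // e ∈ E} → Fin (n + 3)) := fun V p e =>
    ⟨cnum G e.1 ((W bs V).drop p), cnum_lt (by rw [List.length_drop, hlenW]; omega)⟩
  have hcolcard : Fintype.card ({e // e ∈ E} → Fin (n + 3)) = (n + 3) ^ k := by
    rw [Fintype.card_fun, Fintype.card_fin, Fintype.card_coe, hk]
  -- bound on the number of classes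
  obtain ⟨c, hc⟩ : ∃ c, c = 16 * k + 159 := ⟨_, rfl⟩
  have hq : lamb d * 2 ^ g ≤ 2 ^ c := by
    calc lamb d * 2 ^ g ≤ 2 ^ (6 * h + 11) * 2 ^ g := Nat.mul_le_mul_right _ hlam
      _ = 2 ^ (6 * h + 11 + g) := by rw [pow_add 2 (6 * h + 11)]
      _ ≤ 2 ^ c := Nat.pow_le_pow_right (by norm_num) (by omega)
  have hqm : (lamb d * 2 ^ g) ^ (9 * k * D) ≤ 2 ^ (D * D) := by
    calc (lamb d * 2 ^ g) ^ (9 * k * D) ≤ (2 ^ c) ^ (9 * k * D) := Nat.pow_le_pow_left hq _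
      _ = 2 ^ (9 * k * c * D) := by rw [← pow_mul]; congr 1; ring
      _ ≤ 2 ^ (D * D) := Nat.pow_le_pow_right (by norm_num)
          (Nat.mul_le_mul_right _ (by rw [hc]; exact hn1))
  have hK : 2 * (D * (lamb d * 2 ^ g) ^ (9 * k * D)) ≤ 2 ^ (1 + D + D * D) := by
    calc 2 * (D * (lamb d * 2 ^ g) ^ (9 * k * D)) ≤ 2 * (2 ^ D * 2 ^ (D * D)) :=
          Nat.mul_le_mul_left _ (Nat.mul_le_mul (Nat.lt_two_pow_self).le hqm)
      _ = 2 ^ (1 + D + D * D) := by rw [pow_add, pow_add]; ring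
  refine counting (F := F) (Col := {e // e ∈ E} → Fin (n + 3)) (2 ^ (D * D)) D (9 * k * D) (lamb d)
    (lamb d * 2 ^ g) (fun i => 2 ^ (D * i)) (fun i => 2 ^ (D * (i + 1) - g)) ?_ ?_ ?_ ?_ ?_
    (fun V x => Vis G E (u x (P V x)) (W bs V)) ?_ col ?_ ?_ ?_ ?_
  · intro i j hij
    exact Nat.pow_le_pow_right (by norm_num) (Nat.mul_le_mul_left _ hij)
  · exact le_rfl
  · intro i _
    refine ⟨by positivity, ?_⟩
    have h1 : g ≤ D * (i + 1) := hn3.trans (Nat.le_mul_of_pos_right _ (Nat.succ_pos _))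
    have h2 : 2 ^ g * 2 ^ (D * (i + 1) - g) = 2 ^ (D * (i + 1)) := by
      rw [← pow_add]; congr 1; omega
    show lamb d * 2 ^ (D * (i + 1)) ≤ lamb d * 2 ^ g * 2 ^ (D * (i + 1) - g)
    rw [mul_assoc, h2]
  · positivity
  · omega
  · intro V x
    refine (card_Vis_le _ _ _).trans ?_
    rw [hulen, ← hk]
    have h1 : 2 * d + 1 ≤ 9 * (D * D) := by
      rw [hd]; nlinarith
    calc (2 * d + 1) * k ≤ 9 * (D * D) * k := Nat.mul_le_mul_right _ h1
      _ = D * (9 * k * D) := by ring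
  · intro V V' T hT p hp
    have h1 := drop_W bs V V' T hT p hp
    funext e
    apply Fin.ext
    show cnum G e.1 ((W bs V).drop p) = cnum G e.1 ((W bs V').drop p)
    rw [h1]
  · intro V V' x hx
    have h1 : u x (P V x) ++ W bs V ∈ G.lang := (hmem V x _).2 rfl
    have h2 : u x (P V x) ++ W bs V' ∈ G.lang := by
      refine accept_transfer hE (hS _) (hu _ _) ((hlenW V).trans (hlenW V').symm) ?_ h1
      intro p hp e he
      have h3 := congrFun (hx p hp) ⟨e, he⟩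
      exact congrArg Fin.val h3
    exact (hmem V' x _).1 h2
  · rw [hcard]
    calc 2 * (D * (lamb d * 2 ^ g) ^ (9 * k * D)) * (2 * 2 ^ (D * D))
        ≤ 2 ^ (1 + D + D * D) * (2 * 2 ^ (D * D)) := Nat.mul_le_mul_right _ hK
      _ = 2 ^ (1 + D + D * D + (1 + D * D)) := by
          rw [pow_add 2 (1 + D + D * D) (1 + D * D), pow_add 2 1 (D * D), pow_one]
      _ ≤ 2 ^ d := by
          refine Nat.pow_le_pow_right (by norm_num) ?_
          rw [hd]; nlinarith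
  · intro i _
    rw [hcard, hcolcard]
    have h1 : g ≤ D * (i + 1) := hn3.trans (Nat.le_mul_of_pos_right _ (Nat.succ_pos _))
    have hexp := num_exp (s := 2 ^ (D * (i + 1) - g)) (Bi := 2 ^ (D * i)) (B := 2 ^ (D * (i + 1)))
      hD2 hd hlam16 hg2 Nat.one_le_two_pow (by rw [← pow_add]; congr 1)
      (by rw [← pow_add]; congr 1; omega)
    show 2 * (D * (lamb d * 2 ^ g) ^ (9 * k * D)) *
      ((n + 3) ^ k) ^ (lamb d * 2 ^ (D * i) + 9 * k * D * 2 ^ (D * (i + 1) - g)) <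
      (2 ^ d) ^ (2 ^ (D * (i + 1)) - 2 ^ (D * i))
    generalize lamb d * 2 ^ (D * i) + 9 * k * D * 2 ^ (D * (i + 1) - g) = e at *
    calc 2 * (D * (lamb d * 2 ^ g) ^ (9 * k * D)) * ((n + 3) ^ k) ^ e
        ≤ 2 ^ (1 + D + D * D) * ((2 ^ (2 * d)) ^ k) ^ e :=
          Nat.mul_le_mul hK (Nat.pow_le_pow_left (Nat.pow_le_pow_left hn3' _) _)
      _ = 2 ^ (1 + D + D * D + 2 * d * k * e) := by
          rw [← pow_mul, ← pow_mul, ← pow_add]
          congr 1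
          ring
      _ < 2 ^ (d * (2 ^ (D * (i + 1)) - 2 ^ (D * i))) :=
          Nat.pow_lt_pow_right (by norm_num) hexp
      _ = (2 ^ d) ^ (2 ^ (D * (i + 1)) - 2 ^ (D * i)) := by rw [← pow_mul]

end Pool.Agent.H42.PEG
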