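import Pool.Agent.H42.PEG.Basic

/-!
# Locality of parsing expression grammars
-/

set_option autoImplicit false

namespace Pool.Agent.H42.PEG

open scoped Classical

variable {N T : Type} {G : Grammar N T}

theorem Parses.det {e : Exp N T} {w : List T} {r r' : Option (List T)}
    (h : Parses G e w r) (h' : Parses G e w r') : r = r' := by
  induction h generalizing r' with
  | eps w => cases h'; rfl
  | term_ok a s =>
      cases h' with
      | term_ok => rfl
      | term_fail _ _ h => exact absurd rfl (h s)
  | term_fail a w h =>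
      cases h' with
      | term_ok _ s => exact absurd rfl (h s)
      | term_fail _ _ h => rfl
  | nt A w r h ih =>
      cases h' with
      | nt _ _ _ h' => exact ih h'
  | seq_ok e₁ e₂ w s r h₁ h₂ ih₁ ih₂ =>
      cases h' with
      | seq_ok _ _ _ s' _ h₁' h₂' =>
          have := ih₁ h₁'
          cases this
          exact ih₂ h₂'
      | seq_fail _ _ _ h₁' => have := ih₁ h₁'; cases this
  | seq_fail e₁ e₂ w h₁ ih₁ =>
      cases h' with
      | seq_ok _ _ _ s' _ h₁' h₂' => have := ih₁ h₁'; cases this
      | seq_fail _ _ _ h₁' => rfl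
  | alt_left e₁ e₂ w s h₁ ih₁ =>
      cases h' with
      | alt_left _ _ _ s' h₁' => exact ih₁ h₁'
      | alt_right _ _ _ _ h₁' h₂' => have := ih₁ h₁'; cases this
  | alt_right e₁ e₂ w r h₁ h₂ ih₁ ih₂ =>
      cases h' with
      | alt_left _ _ _ s' h₁' => have := ih₁ h₁'; cases this
      | alt_right _ _ _ _ h₁' h₂' => exact ih₂ h₂'
  | neg_ok e w h ih =>
      cases h' with
      | neg_ok => rfl
      | neg_fail _ _ s' h' => have := ih h'; cases this
  | neg_fail e w s h ih =>
      cases h' with
      | neg_ok _ _ h' => have := ih h'; cases this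
      | neg_fail => rfl

theorem Parses.suffix {e : Exp N T} {w s : List T} (h : Parses G e w (some s)) : s <:+ w := by
  generalize hr : some s = r at h
  induction h generalizing s with
  | eps w => cases hr; exact List.suffix_refl _
  | term_ok a s => cases hr; exact List.suffix_cons _ _
  | term_fail a w h => cases hr
  | nt A w r h ih => exact ih hr
  | seq_ok e₁ e₂ w s r h₁ h₂ ih₁ ih₂ => exact (ih₂ hr).trans (ih₁ rfl)
  | seq_fail e₁ e₂ w h₁ ih₁ => cases hr
  | alt_left e₁ e₂ w s h₁ ih₁ => exact ih₁ hr
  | alt_right e₁ e₂ w r h₁ h₂ ih₁ ih₂ => exact ih₂ hr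
  | neg_ok e w h ih => cases hr; exact List.suffix_refl _
  | neg_fail e w s h ih => cases hr

/-- Number coding the value of `R(e, w)` up to the length of the rest. -/
noncomputable def cnum (G : Grammar N T) (e : Exp N T) (w : List T) : ℕ :=
  if h : ∃ r, Parses G e w r then (match h.choose with | none => 1 | some s => s.length + 2) else 0

/-- Code of a result. -/
def rnum : Option (List T) → ℕ
  | none => 1
  | some s => s.length + 2

theorem cnum_of {e : Exp N T} {w : List T} {r : Option (List T)} (h : Parses G e w r) :
    cnum G e w = rnum r := by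
  have h0 : ∃ r, Parses G e w r := ⟨r, h⟩
  have h1 : h0.choose = r := h0.choose_spec.det h
  unfold cnum
  rw [dif_pos h0, h1]
  cases r <;> rfl

theorem cnum_eq_rnum {e : Exp N T} {w : List T} {r : Option (List T)}
    (h : cnum G e w = rnum r) : ∃ r', Parses G e w r' ∧ rnum r' = rnum r := by
  by_cases h0 : ∃ r, Parses G e w r
  · obtain ⟨r', hr'⟩ := h0
    exact ⟨r', hr', by rw [← cnum_of hr', h]⟩
  · exfalso
    unfold cnum at h
    rw [dif_neg h0] at h
    cases r <;> simp [rnum] at h

theorem cnum_lt {e : Exp N T} {w : List T} {n : ℕ} (hn : w.length ≤ n) : cnum G e w < n + 3 := by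
  by_cases h0 : ∃ r, Parses G e w r
  · obtain ⟨r, hr⟩ := h0
    rw [cnum_of hr]
    cases r with
    | none => simp [rnum]
    | some s =>
        have := hr.suffix.length_le
        simp only [rnum]
        omega
  · unfold cnum
    rw [dif_neg h0]
    omega

theorem rnum_some_eq {s s' : List T} (h : rnum (some s) = rnum (some s')) :
    s.length = s'.length := by
  simpa [rnum] using h

/-- Closedness of a set of expressions under rules and subexpressions. -/
structure Closed (G : Grammar N T) (E : Finset (Exp N T)) : Prop where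
  nt : ∀ A, Exp.nt A ∈ E → G.rule A ∈ E
  seq1 : ∀ e₁ e₂, Exp.seq e₁ e₂ ∈ E → e₁ ∈ E
  seq2 : ∀ e₁ e₂, Exp.seq e₁ e₂ ∈ E → e₂ ∈ E
  alt1 : ∀ e₁ e₂, Exp.alt e₁ e₂ ∈ E → e₁ ∈ E
  alt2 : ∀ e₁ e₂, Exp.alt e₁ e₂ ∈ E → e₂ ∈ E
  neg1 : ∀ e, Exp.neg e ∈ E → e ∈ E

/-- Subexpressions. -/
noncomputable def subs : Exp N T → Finset (Exp N T)
  | Exp.eps => {Exp.eps}
  | Exp.term a => {Exp.term a}
  | Exp.nt A => {Exp.nt A}
  | Exp.seq e₁ e₂ => insert (Exp.seq e₁ e₂) (subs e₁ ∪ subs e₂)
  | Exp.alt e₁ e₂ => insert (Exp.alt e₁ e₂) (subs e₁ ∪ subs e₂)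
  | Exp.neg e => insert (Exp.neg e) (subs e)

theorem self_mem_subs (e : Exp N T) : e ∈ subs e := by
  cases e <;> simp [subs]

theorem subs_subset {e f : Exp N T} (h : e ∈ subs f) : subs e ⊆ subs f := by
  induction f with
  | eps => simp only [subs, Finset.mem_singleton] at h; subst h; exact subset_rfl
  | term a => simp only [subs, Finset.mem_singleton] at h; subst h; exact subset_rfl
  | nt A => simp only [subs, Finset.mem_singleton] at h; subst h; exact subset_rfl
  | seq e₁ e₂ ih₁ ih₂ =>
      simp only [subs, Finset.mem_insert, Finset.mem_union] at h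
      rcases h with h | h | h
      · subst h; exact subset_rfl
      · refine (ih₁ h).trans ?_
        intro x hx
        simp [subs, hx]
      · refine (ih₂ h).trans ?_
        intro x hx
        simp [subs, hx]
  | alt e₁ e₂ ih₁ ih₂ =>
      simp only [subs, Finset.mem_insert, Finset.mem_union] at h
      rcases h with h | h | h
      · subst h; exact subset_rfl
      · refine (ih₁ h).trans ?_
        intro x hx
        simp [subs, hx]
      · refine (ih₂ h).trans ?_
        intro x hx
        simp [subs, hx]
  | neg e ih =>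
      simp only [subs, Finset.mem_insert] at h
      rcases h with h | h
      · subst h; exact subset_rfl
      · refine (ih h).trans ?_
        intro x hx
        simp [subs, hx]

theorem exists_closed [Fintype N] (G : Grammar N T) :
    ∃ E : Finset (Exp N T), Closed G E ∧ ∀ A, Exp.nt A ∈ E := by
  classical
  refine ⟨(Finset.univ.biUnion fun A => subs (G.rule A)) ∪ Finset.univ.image Exp.nt, ?_, ?_⟩
  · have key : ∀ e f : Exp N T, e ∈ subs f → f ∈ (Finset.univ.biUnion fun A => subs (G.rule A)) →
        e ∈ (Finset.univ.biUnion fun A => subs (G.rule A)) := by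
      intro e f hef hf
      rw [Finset.mem_biUnion] at hf ⊢
      obtain ⟨A, hA, hf⟩ := hf
      exact ⟨A, hA, subs_subset hf hef⟩
    constructor
    · intro A _
      refine Finset.mem_union_left _ (Finset.mem_biUnion.2 ⟨A, Finset.mem_univ _, self_mem_subs _⟩)
    · intro e₁ e₂ h
      rcases Finset.mem_union.1 h with h | h
      · exact Finset.mem_union_left _ (key _ _ (by simp [subs, self_mem_subs]) h)
      · simp at h
    · intro e₁ e₂ h
      rcases Finset.mem_union.1 h with h | h
      · exact Finset.mem_union_left _ (key _ _ (by simp [subs, self_mem_subs]) h)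
      · simp at h
    · intro e₁ e₂ h
      rcases Finset.mem_union.1 h with h | h
      · exact Finset.mem_union_left _ (key _ _ (by simp [subs, self_mem_subs]) h)
      · simp at h
    · intro e₁ e₂ h
      rcases Finset.mem_union.1 h with h | h
      · exact Finset.mem_union_left _ (key _ _ (by simp [subs, self_mem_subs]) h)
      · simp at h
    · intro e h
      rcases Finset.mem_union.1 h with h | h
      · exact Finset.mem_union_left _ (key _ _ (by simp [subs, self_mem_subs]) h)
      · simp at h
  · intro A
    exact Finset.mem_union_right _ (Finset.mem_image_of_mem _ (Finset.mem_univ _))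

/-- The offset in `w` visited by the continuation of a sequence at a suffix of `u ++ w`. -/
noncomputable def vis1 (G : Grammar N T) (u w : List T) (k : ℕ) : Exp N T → ℕ
  | Exp.seq e₁ _ =>
      if h : ∃ s, Parses G e₁ (u.drop k ++ w) (some s) then w.length - h.choose.length else 0
  | _ => 0

/-- The offsets in `w` which are visited from the letters of `u`. -/
noncomputable def Vis (G : Grammar N T) (E : Finset (Exp N T)) (u w : List T) : Finset ℕ :=
  ((Finset.range u.length) ×ˢ E).image fun ke => vis1 G u w ke.1 ke.2

theorem card_Vis_le (E : Finset (Exp N T)) (u w : List T) :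
    (Vis G E u w).card ≤ u.length * E.card := by
  refine Finset.card_image_le.trans ?_
  rw [Finset.card_product, Finset.card_range]

theorem mem_Vis {E : Finset (Exp N T)} {u w v : List T} {e₁ e₂ : Exp N T} {s : List T}
    (hv : v ≠ []) (hvu : v <:+ u) (he : Exp.seq e₁ e₂ ∈ E)
    (h : Parses G e₁ (v ++ w) (some s)) : w.length - s.length ∈ Vis G E u w := by
  refine Finset.mem_image.2 ⟨(u.length - v.length, Exp.seq e₁ e₂), ?_, ?_⟩
  · refine Finset.mem_product.2 ⟨Finset.mem_range.2 ?_, he⟩
    have h1 := hvu.length_le
    have h2 : 0 < v.length := List.length_pos_iff.2 hv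
    show u.length - v.length < u.length
    omega
  · have hd : u.drop (u.length - v.length) = v := (List.suffix_iff_eq_drop.1 hvu).symm
    have h0 : ∃ s, Parses G e₁ (u.drop (u.length - v.length) ++ w) (some s) := by
      rw [hd]; exact ⟨s, h⟩
    have h1 : h0.choose = s := by
      have h2 := h0.choose_spec
      have h3 : Parses G e₁ (u.drop (u.length - v.length) ++ w) (some s) := by rw [hd]; exact h
      exact Option.some.inj (h2.det h3)
    simp only [vis1]
    rw [dif_pos h0, h1]

theorem suffix_append_cases {v w s : List T} (h : s <:+ v ++ w) :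
    (∃ v', v' ≠ [] ∧ v' <:+ v ∧ s = v' ++ w) ∨ (s.length ≤ w.length ∧
      s = w.drop (w.length - s.length)) := by
  by_cases hl : s.length ≤ w.length
  · right
    refine ⟨hl, ?_⟩
    have hw : w <:+ v ++ w := List.suffix_append v w
    have : s <:+ w := List.suffix_of_suffix_length_le h hw hl
    exact List.suffix_iff_eq_drop.1 this
  · left
    rw [not_le] at hl
    have hs := List.suffix_iff_eq_drop.1 h
    have hsl := h.length_le
    rw [List.length_append] at hsl
    have h3 : (v ++ w).drop ((v ++ w).length - s.length) =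
        v.drop ((v ++ w).length - s.length) ++ w := by
      rw [List.drop_append_of_le_length]
      rw [List.length_append]; omega
    refine ⟨v.drop ((v ++ w).length - s.length), ?_, List.drop_suffix _ _, ?_⟩
    · intro h4
      rw [List.drop_eq_nil_iff, List.length_append] at h4
      omega
    · rw [← h3]; exact hs

/-- Transfer lemma. -/
theorem transfer {E : Finset (Exp N T)} (hE : Closed G E) {u w w' : List T}
    (hlen : w.length = w'.length)
    (hcol : ∀ p ∈ Vis G E u w, ∀ e ∈ E, cnum G e (w.drop p) = cnum G e (w'.drop p))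
    {e : Exp N T} {x : List T} {r : Option (List T)} (h : Parses G e x r) :
    e ∈ E → ∀ v : List T, v ≠ [] → v <:+ u → x = v ++ w →
      ∃ r', Parses G e (v ++ w') r' ∧ rnum r' = rnum r := by
  induction h with
  | eps x =>
      intro _ v _ _ hx
      refine ⟨_, Parses.eps _, ?_⟩
      subst hx
      simp [rnum, hlen]
  | term_ok a s =>
      intro _ v hv _ hx
      obtain ⟨c, v', rfl⟩ := List.exists_cons_of_ne_nil hv
      rw [List.cons_append] at hx
      injection hx with h1 h2
      subst h1 h2
      exact ⟨_, Parses.term_ok _ _, by simp [rnum, hlen]⟩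
  | term_fail a x h =>
      intro _ v hv _ hx
      obtain ⟨c, v', rfl⟩ := List.exists_cons_of_ne_nil hv
      refine ⟨none, Parses.term_fail _ _ ?_, rfl⟩
      intro s hs
      rw [List.cons_append] at hs hx
      injection hs with h1 h2
      subst h1
      exact h _ hx
  | nt A x r h ih =>
      intro he v hv hvu hx
      obtain ⟨r', h1, h2⟩ := ih (hE.nt _ he) v hv hvu hx
      exact ⟨r', Parses.nt _ _ _ h1, h2⟩
  | seq_ok e₁ e₂ x s r h₁ h₂ ih₁ ih₂ =>
      intro he v hv hvu hx
      obtain ⟨r₁, h3, h4⟩ := ih₁ (hE.seq1 _ _ he) v hv hvu hx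
      cases r₁ with
      | none => simp [rnum] at h4
      | some s' =>
          have hss : s'.length = s.length := rnum_some_eq h4
          subst hx
          rcases suffix_append_cases h₁.suffix with ⟨v₁, hv₁, hv₁v, hs⟩ | ⟨hl, hs⟩
          · have hs' : s' = v₁ ++ w' := by
              have h5 : v₁ ++ w' <:+ v ++ w' := by
                obtain ⟨t, ht⟩ := hv₁v
                exact ⟨t, by rw [← ht, List.append_assoc]⟩
              have h6 := h3.suffix
              have h7 : s'.length = (v₁ ++ w').length := by
                rw [hss, hs]; simp [hlen]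
              rw [List.suffix_iff_eq_drop.1 h6, List.suffix_iff_eq_drop.1 h5, h7]
            obtain ⟨r', h8, h9⟩ := ih₂ (hE.seq2 _ _ he) v₁ hv₁ (hv₁v.trans hvu) hs
            refine ⟨r', Parses.seq_ok _ _ _ _ _ h3 ?_, h9⟩
            rw [hs']; exact h8
          · have hp := mem_Vis hv hvu he h₁
            have hc := hcol _ hp e₂ (hE.seq2 _ _ he)
            rw [← hs, cnum_of h₂] at hc
            have hs' : s' = w'.drop (w.length - s.length) := by
              have h6 := h3.suffix
              rcases suffix_append_cases h6 with ⟨v₁, hv₁, hv₁v, hs1⟩ | ⟨hl1, hs1⟩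
              · exfalso
                have h2 : 0 < v₁.length := List.length_pos_iff.2 hv₁
                rw [hs1, List.length_append] at hss
                omega
              · rw [hss, ← hlen] at hs1; exact hs1
            rw [← hs'] at hc
            obtain ⟨r', h8, h9⟩ := cnum_eq_rnum hc.symm
            exact ⟨r', Parses.seq_ok _ _ _ _ _ h3 h8, h9⟩
  | seq_fail e₁ e₂ x h₁ ih₁ =>
      intro he v hv hvu hx
      obtain ⟨r₁, h3, h4⟩ := ih₁ (hE.seq1 _ _ he) v hv hvu hx
      cases r₁ with
      | none => exact ⟨none, Parses.seq_fail _ _ _ h3, rfl⟩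
      | some s' => simp [rnum] at h4
  | alt_left e₁ e₂ x s h₁ ih₁ =>
      intro he v hv hvu hx
      obtain ⟨r₁, h3, h4⟩ := ih₁ (hE.alt1 _ _ he) v hv hvu hx
      cases r₁ with
      | none => simp [rnum] at h4
      | some s' => exact ⟨_, Parses.alt_left _ _ _ _ h3, h4⟩
  | alt_right e₁ e₂ x r h₁ h₂ ih₁ ih₂ =>
      intro he v hv hvu hx
      obtain ⟨r₁, h3, h4⟩ := ih₁ (hE.alt1 _ _ he) v hv hvu hx
      cases r₁ with
      | none =>
          obtain ⟨r₂, h5, h6⟩ := ih₂ (hE.alt2 _ _ he) v hv hvu hx
          exact ⟨_, Parses.alt_right _ _ _ _ h3 h5, h6⟩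
      | some s' => simp [rnum] at h4
  | neg_ok e x h ih =>
      intro he v hv hvu hx
      obtain ⟨r₁, h3, h4⟩ := ih (hE.neg1 _ he) v hv hvu hx
      cases r₁ with
      | none =>
          refine ⟨_, Parses.neg_ok _ _ h3, ?_⟩
          subst hx
          simp [rnum, hlen]
      | some s' => simp [rnum] at h4
  | neg_fail e x s h ih =>
      intro he v hv hvu hx
      obtain ⟨r₁, h3, h4⟩ := ih (hE.neg1 _ he) v hv hvu hx
      cases r₁ with
      | none => simp [rnum] at h4
      | some s' => exact ⟨_, Parses.neg_fail _ _ _ h3, rfl⟩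

/-- Acceptance transfers between words with the same columns at the visited offsets. -/
theorem accept_transfer {E : Finset (Exp N T)} (hE : Closed G E) (hS : Exp.nt G.start ∈ E)
    {u w w' : List T} (hu : u ≠ []) (hlen : w.length = w'.length)
    (hcol : ∀ p ∈ Vis G E u w, ∀ e ∈ E, cnum G e (w.drop p) = cnum G e (w'.drop p))
    (h : u ++ w ∈ G.lang) : u ++ w' ∈ G.lang := by
  obtain ⟨r', h1, h2⟩ := transfer hE hlen hcol h hS u hu (List.suffix_refl _) rfl
  cases r' with
  | none => simp [rnum] at h2
  | some s =>
      have := rnum_some_eq h2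
      rw [List.length_nil, List.length_eq_zero_iff] at this
      rw [this] at h1
      exact h1

end Pool.Agent.H42.PEG
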