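import Pool.Agent.H42.PEG.Local

/-!
# The grammar simulating a one-bit-state transducer on a register
-/

set_option autoImplicit false

namespace Pool.Agent.H42.PEG

/-- Instructions. -/
inductive Ins : Type
  | I | L | X | Z | O
  deriving DecidableEq

instance : Fintype Ins := ⟨{Ins.I, Ins.L, Ins.X, Ins.Z, Ins.O}, by intro x; cases x <;> decide⟩

/-- The alphabet. -/
inductive Sym : Type
  | bit (b : ZMod 2)
  | ins (c : Ins)
  | hash
  | dollar
  deriving DecidableEq, Fintype

/-- Nonterminals of the first grammar. -/
inductive NT : Type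
  | S | A | C | J | B
  | P (q : ZMod 2)
  | D (q b : ZMod 2)
  | Bt (r : ZMod 2)
  deriving DecidableEq, Fintype

/-- Transition function: instruction, state, read bit to new state and written bit. -/
def delta (c : Ins) (q r : ZMod 2) : ZMod 2 × ZMod 2 :=
  match c with
  | Ins.I => (q, r)
  | Ins.L => (q * r, r)
  | Ins.X => (q, r + q)
  | Ins.Z => (q, 0)
  | Ins.O => (q, 1)

section general

variable {N T : Type} {G : Grammar N T}

/-- Prioritized choice over a list. -/
def altList : List (Exp N T) → Exp N T
  | [] => Exp.neg Exp.eps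
  | e :: es => Exp.alt e (altList es)

theorem parses_fail (w : List T) : Parses G (Exp.neg Exp.eps) w none :=
  Parses.neg_fail _ _ _ (Parses.eps w)

theorem altList_none {es : List (Exp N T)} {w : List T} (h : ∀ e ∈ es, Parses G e w none) :
    Parses G (altList es) w none := by
  induction es with
  | nil => exact parses_fail w
  | cons e es ih =>
      exact Parses.alt_right _ _ _ _ (h e (by simp)) (ih fun e' he' => h e' (by simp [he']))

theorem altList_some {es : List (Exp N T)} {w s : List T}
    (h : ∀ e ∈ es, Parses G e w none ∨ Parses G e w (some s))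
    (h' : ∃ e ∈ es, Parses G e w (some s)) :
    Parses G (altList es) w (some s) := by
  induction es with
  | nil => obtain ⟨e, he, _⟩ := h'; simp at he
  | cons e es ih =>
      rcases h e (by simp) with h1 | h1
      · refine Parses.alt_right _ _ _ _ h1 (ih (fun e' he' => h e' (by simp [he'])) ?_)
        obtain ⟨e', he', h2⟩ := h'
        rcases List.mem_cons.1 he' with h3 | h3
        · subst h3
          have := h1.det h2
          cases this
        · exact ⟨e', h3, h2⟩
      · exact Parses.alt_left _ _ _ _ h1

/-- The and-predicate. -/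
def andE (e : Exp N T) : Exp N T := Exp.neg (Exp.neg e)

theorem andE_some {e : Exp N T} {w s : List T} (h : Parses G e w (some s)) :
    Parses G (andE e) w (some w) :=
  Parses.neg_ok _ _ (Parses.neg_fail _ _ _ h)

theorem andE_none {e : Exp N T} {w : List T} (h : Parses G e w none) :
    Parses G (andE e) w none :=
  Parses.neg_fail _ _ _ (Parses.neg_ok _ _ h)

/-- Any single letter. -/
noncomputable def anyE [Fintype T] : Exp N T := altList ((Finset.univ : Finset T).toList.map Exp.term)

theorem term_none {a c : T} (w : List T) (h : a ≠ c) : Parses G (Exp.term a) (c :: w) none :=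
  Parses.term_fail _ _ fun _ hs => h (List.cons.inj hs).1.symm

theorem term_nil (a : T) : Parses G (Exp.term a) [] none :=
  Parses.term_fail _ _ fun _ hs => by cases hs

theorem anyE_cons [Fintype T] (c : T) (w : List T) : Parses G (anyE (N := N)) (c :: w) (some w) := by
  refine altList_some ?_ ?_
  · intro e he
    obtain ⟨a, _, rfl⟩ := List.mem_map.1 he
    by_cases hac : a = c
    · subst hac; exact Or.inr (Parses.term_ok _ _)
    · exact Or.inl (term_none _ hac)
  · exact ⟨Exp.term c, List.mem_map.2 ⟨c, Finset.mem_toList.2 (Finset.mem_univ _), rfl⟩,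
      Parses.term_ok _ _⟩

theorem anyE_nil [Fintype T] : Parses G (anyE (N := N)) [] none := by
  refine altList_none ?_
  intro e he
  obtain ⟨a, _, rfl⟩ := List.mem_map.1 he
  exact term_nil a

end general

/-- Alternatives of the nonterminal `D q b`. -/
noncomputable def altsD (q b : ZMod 2) : List (Exp NT Sym) :=
  ((Finset.univ : Finset (Ins × ZMod 2 × ZMod 2)).filter
    fun z => delta z.1 z.2.1 z.2.2 = (q, b)).toList.map fun z =>
      Exp.seq (Exp.term (Sym.ins z.1)) (Exp.seq (Exp.nt (NT.P z.2.1))
        (Exp.seq (Exp.nt (NT.Bt z.2.2)) anyE))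

/-- The rules. -/
noncomputable def rules : NT → Exp NT Sym
  | NT.S => Exp.seq (Exp.nt NT.C) (Exp.nt NT.A)
  | NT.A => Exp.alt (Exp.seq anyE (Exp.nt NT.A)) Exp.eps
  | NT.C => Exp.alt (Exp.seq (Exp.term (Sym.bit 0)) (Exp.seq (Exp.nt NT.C)
        (Exp.seq (Exp.nt (NT.Bt 0)) anyE)))
      (Exp.alt (Exp.seq (Exp.term (Sym.bit 1)) (Exp.seq (Exp.nt NT.C)
        (Exp.seq (Exp.nt (NT.Bt 1)) anyE)))
      (Exp.seq (Exp.term Sym.hash) (Exp.nt NT.J)))
  | NT.J => Exp.alt (Exp.seq (Exp.nt NT.B) (Exp.seq (Exp.term Sym.dollar) (Exp.nt NT.J))) Exp.eps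
  | NT.B => Exp.alt (Exp.seq (Exp.term (Sym.bit 0)) (Exp.nt NT.B))
      (Exp.alt (Exp.seq (Exp.term (Sym.bit 1)) (Exp.nt NT.B)) Exp.eps)
  | NT.P q => Exp.alt (Exp.nt (NT.D q 0)) (Exp.alt (Exp.nt (NT.D q 1))
      (if q = 1 then Exp.seq (Exp.term Sym.hash) (Exp.nt NT.J) else Exp.neg Exp.eps))
  | NT.D q b => altList (altsD q b)
  | NT.Bt r => Exp.alt (andE (Exp.term (Sym.bit r)))
      (Exp.alt (andE (Exp.nt (NT.D 0 r))) (andE (Exp.nt (NT.D 1 r))))

/-- The first grammar. -/
noncomputable def G1 : Grammar NT Sym where
  rule := rules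
  start := NT.S

/-- The suffix `w` carries the bit `b`. -/
def HasBit (w : List Sym) (b : ZMod 2) : Prop :=
  ∀ r, Parses G1 (Exp.nt (NT.Bt r)) w (if r = b then some w else none)

/-- The word starts with letters carrying the given bits. -/
def Reg : List Sym → List (ZMod 2) → Prop
  | _, [] => True
  | [], _ :: _ => False
  | c :: w, b :: ρ => HasBit (c :: w) b ∧ Reg w ρ

theorem Reg.take {w : List Sym} {ρ : List (ZMod 2)} (k : ℕ) (h : Reg w ρ) : Reg w (ρ.take k) := by
  induction ρ generalizing w k with
  | nil => simp [Reg]
  | cons b ρ ih =>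
      cases w with
      | nil => exact absurd h (by simp [Reg])
      | cons c w =>
          cases k with
          | zero => simp [Reg]
          | succ k => exact ⟨h.1, ih k h.2⟩

theorem Reg.snoc {w : List Sym} {ρ : List (ZMod 2)} {r : ZMod 2} (h : Reg w (ρ ++ [r])) :
    Reg w ρ ∧ ∃ c w', w.drop ρ.length = c :: w' ∧ HasBit (c :: w') r := by
  induction ρ generalizing w with
  | nil =>
      cases w with
      | nil => exact absurd h (by simp [Reg])
      | cons c w => exact ⟨by simp [Reg], c, w, rfl, h.1⟩
  | cons b ρ ih =>
      cases w with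
      | nil => exact absurd h (by simp [Reg])
      | cons c w =>
          obtain ⟨h1, h2⟩ := ih h.2
          exact ⟨⟨h.1, h1⟩, h2⟩

/-- Processing of a register by instructions, in processing order. -/
def fwd : ZMod 2 → List Ins → List (ZMod 2) → List (ZMod 2)
  | q, c :: g, r :: ρ => (delta c q r).2 :: fwd (delta c q r).1 g ρ
  | _, _, _ => []

/-- The final state. -/
def fin : ZMod 2 → List Ins → List (ZMod 2) → ZMod 2
  | q, c :: g, r :: ρ => fin (delta c q r).1 g ρ
  | q, _, _ => q

theorem fwd_append (q : ZMod 2) (g g' : List Ins) (ρ ρ' : List (ZMod 2))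
    (h : g.length = ρ.length) :
    fwd q (g ++ g') (ρ ++ ρ') = fwd q g ρ ++ fwd (fin q g ρ) g' ρ' := by
  induction g generalizing q ρ with
  | nil =>
      cases ρ with
      | nil => simp [fwd, fin]
      | cons r ρ => simp at h
  | cons c g ih =>
      cases ρ with
      | nil => simp at h
      | cons r ρ =>
          simp only [List.cons_append, fwd, fin]
          rw [ih _ _ (by simpa using h)]

theorem fin_append (q : ZMod 2) (g g' : List Ins) (ρ ρ' : List (ZMod 2))
    (h : g.length = ρ.length) :
    fin q (g ++ g') (ρ ++ ρ') = fin (fin q g ρ) g' ρ' := by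
  induction g generalizing q ρ with
  | nil =>
      cases ρ with
      | nil => simp [fin]
      | cons r ρ => simp at h
  | cons c g ih =>
      cases ρ with
      | nil => simp at h
      | cons r ρ =>
          simp only [List.cons_append, fin]
          rw [ih _ _ (by simpa using h)]

theorem length_fwd (q : ZMod 2) (g : List Ins) (ρ : List (ZMod 2)) (h : g.length = ρ.length) :
    (fwd q g ρ).length = ρ.length := by
  induction g generalizing q ρ with
  | nil =>
      cases ρ with
      | nil => simp [fwd]
      | cons r ρ => simp at h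
  | cons c g ih =>
      cases ρ with
      | nil => simp at h
      | cons r ρ =>
          simp only [fwd, List.length_cons]
          rw [ih _ _ (by simpa using h)]

/-- Semantics of `D` at an instruction letter. -/
theorem parses_D {c : Ins} {w₁ t : List Sym} {q r : ZMod 2} {a : Sym} {t' : List Sym}
    (hP : ∀ q', Parses G1 (Exp.nt (NT.P q')) w₁ (if q' = q then some t else none))
    (ht : t = a :: t') (hb : HasBit t r) (q₂ b : ZMod 2) :
    Parses G1 (Exp.nt (NT.D q₂ b)) (Sym.ins c :: w₁)
      (if delta c q r = (q₂, b) then some t' else none) := by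
  have key : ∀ z : Ins × ZMod 2 × ZMod 2, z ≠ (c, q, r) → Parses G1
      (Exp.seq (Exp.term (Sym.ins z.1)) (Exp.seq (Exp.nt (NT.P z.2.1))
        (Exp.seq (Exp.nt (NT.Bt z.2.2)) anyE))) (Sym.ins c :: w₁) none := by
    rintro ⟨c', q', r'⟩ hz
    by_cases hc : c' = c
    · subst hc
      refine Parses.seq_ok _ _ _ _ _ (Parses.term_ok _ _) ?_
      have hPq := hP q'
      by_cases hq : q' = q
      · subst hq
        rw [if_pos rfl] at hPq
        refine Parses.seq_ok _ _ _ _ _ hPq ?_
        have hr : r' ≠ r := by rintro rfl; exact hz rfl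
        have hB := hb r'
        rw [if_neg hr] at hB
        exact Parses.seq_fail _ _ _ hB
      · rw [if_neg hq] at hPq
        exact Parses.seq_fail _ _ _ hPq
    · refine Parses.seq_fail _ _ _ (term_none _ ?_)
      intro h; apply hc; injection h
  refine Parses.nt _ _ _ ?_
  show Parses G1 (altList (altsD q₂ b)) _ _
  split_ifs with hd
  · have hgood : Parses G1
      (Exp.seq (Exp.term (Sym.ins c)) (Exp.seq (Exp.nt (NT.P q))
        (Exp.seq (Exp.nt (NT.Bt r)) anyE))) (Sym.ins c :: w₁) (some t') := by
      refine Parses.seq_ok _ _ _ _ _ (Parses.term_ok _ _) ?_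
      have hPq := hP q
      rw [if_pos rfl] at hPq
      refine Parses.seq_ok _ _ _ _ _ hPq ?_
      have hB := hb r
      rw [if_pos rfl] at hB
      refine Parses.seq_ok _ _ _ _ _ hB ?_
      rw [ht]
      exact anyE_cons _ _
    refine altList_some ?_ ?_
    · intro e he
      obtain ⟨z, _, rfl⟩ := List.mem_map.1 he
      by_cases hz : z = (c, q, r)
      · right; subst hz; exact hgood
      · left; exact key z hz
    · refine ⟨_, List.mem_map.2 ⟨(c, q, r), ?_, rfl⟩, hgood⟩
      rw [Finset.mem_toList, Finset.mem_filter]
      exact ⟨Finset.mem_univ _, hd⟩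
  · refine altList_none ?_
    intro e he
    obtain ⟨z, hz, rfl⟩ := List.mem_map.1 he
    refine key z ?_
    rintro rfl
    rw [Finset.mem_toList, Finset.mem_filter] at hz
    exact hd hz.2

/-- `D` fails at letters which are not instructions. -/
theorem parses_D_none {a : Sym} {w : List Sym} (ha : ∀ c, a ≠ Sym.ins c) (q b : ZMod 2) :
    Parses G1 (Exp.nt (NT.D q b)) (a :: w) none := by
  refine Parses.nt _ _ _ ?_
  refine altList_none ?_
  intro e he
  obtain ⟨z, hz, rfl⟩ := List.mem_map.1 he
  exact Parses.seq_fail _ _ _ (term_none _ fun h => ha z.1 h.symm)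

theorem zmod2_cases (b : ZMod 2) : b = 0 ∨ b = 1 := by
  revert b; decide

theorem hasBit_bit (b : ZMod 2) (w : List Sym) : HasBit (Sym.bit b :: w) b := by
  intro r
  refine Parses.nt _ _ _ ?_
  show Parses G1 (Exp.alt (andE (Exp.term (Sym.bit r)))
      (Exp.alt (andE (Exp.nt (NT.D 0 r))) (andE (Exp.nt (NT.D 1 r))))) _ _
  split_ifs with h
  · subst h
    exact Parses.alt_left _ _ _ _ (andE_some (Parses.term_ok _ _))
  · have hD : ∀ q, Parses G1 (Exp.nt (NT.D q r)) (Sym.bit b :: w) none := fun q =>
      parses_D_none (fun c hc => by cases hc) q r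
    refine Parses.alt_right _ _ _ _ (andE_none (term_none _ ?_)) ?_
    · intro h'; apply h; injection h'
    · exact Parses.alt_right _ _ _ _ (andE_none (hD 0)) (andE_none (hD 1))

/-- Semantics of one more instruction. -/
theorem parses_ins {c : Ins} {w₁ t : List Sym} {q r : ZMod 2} {a : Sym} {t' : List Sym}
    (hP : ∀ q', Parses G1 (Exp.nt (NT.P q')) w₁ (if q' = q then some t else none))
    (ht : t = a :: t') (hb : HasBit t r) :
    (∀ q', Parses G1 (Exp.nt (NT.P q')) (Sym.ins c :: w₁)
      (if q' = (delta c q r).1 then some t' else none)) ∧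
    HasBit (Sym.ins c :: w₁) (delta c q r).2 := by
  have hD := parses_D (c := c) hP ht hb
  rcases hz : delta c q r with ⟨z1, z2⟩
  rw [hz] at hD
  constructor
  · intro q'
    refine Parses.nt _ _ _ ?_
    have h0 := hD q' 0
    have h1 := hD q' 1
    by_cases hq : q' = z1
    · subst hq
      rw [if_pos rfl]
      rcases zmod2_cases z2 with hz2 | hz2
      · subst hz2
        rw [if_pos rfl] at h0
        exact Parses.alt_left _ _ _ _ h0
      · subst hz2
        rw [if_neg (by rw [Prod.mk.injEq]; rintro ⟨_, h⟩; revert h; decide)] at h0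
        rw [if_pos rfl] at h1
        exact Parses.alt_right _ _ _ _ h0 (Parses.alt_left _ _ _ _ h1)
    · rw [if_neg hq]
      rw [if_neg (by rw [Prod.mk.injEq]; rintro ⟨h, _⟩; exact hq h.symm)] at h0
      rw [if_neg (by rw [Prod.mk.injEq]; rintro ⟨h, _⟩; exact hq h.symm)] at h1
      refine Parses.alt_right _ _ _ _ h0 (Parses.alt_right _ _ _ _ h1 ?_)
      split_ifs with hq1
      · exact Parses.seq_fail _ _ _ (term_none _ (by intro h; cases h))
      · exact parses_fail _
  · intro b
    refine Parses.nt _ _ _ ?_
    have h0 := hD 0 b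
    have h1 := hD 1 b
    refine Parses.alt_right _ _ _ _ (andE_none (term_none _ (by intro h; cases h))) ?_
    by_cases hb2 : b = z2
    · subst hb2
      rw [if_pos rfl]
      rcases zmod2_cases z1 with hz1 | hz1
      · subst hz1
        rw [if_pos rfl] at h0
        exact Parses.alt_left _ _ _ _ (andE_some h0)
      · subst hz1
        rw [if_neg (by rw [Prod.mk.injEq]; rintro ⟨h, _⟩; revert h; decide)] at h0
        rw [if_pos rfl] at h1
        exact Parses.alt_right _ _ _ _ (andE_none h0) (andE_some h1)
    · rw [if_neg hb2]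
      rw [if_neg (by rw [Prod.mk.injEq]; rintro ⟨_, h⟩; exact hb2 h.symm)] at h0
      rw [if_neg (by rw [Prod.mk.injEq]; rintro ⟨_, h⟩; exact hb2 h.symm)] at h1
      exact Parses.alt_right _ _ _ _ (andE_none h0) (andE_none h1)

/-- Semantics of `P` at the end of a block. -/
theorem parses_P_hash {w₀ t : List Sym} (hJ : Parses G1 (Exp.nt NT.J) w₀ (some t)) (q : ZMod 2) :
    Parses G1 (Exp.nt (NT.P q)) (Sym.hash :: w₀) (if q = 1 then some t else none) := by
  refine Parses.nt _ _ _ ?_
  have hD : ∀ b, Parses G1 (Exp.nt (NT.D q b)) (Sym.hash :: w₀) none := fun b =>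
    parses_D_none (fun c hc => by cases hc) q b
  refine Parses.alt_right _ _ _ _ (hD 0) (Parses.alt_right _ _ _ _ (hD 1) ?_)
  split_ifs with h
  · exact Parses.seq_ok _ _ _ _ _ (Parses.term_ok _ _) hJ
  · exact parses_fail _

/-- Semantics of a block: `g` is the list of instructions in processing order, which is written
in reverse. -/
theorem parses_block {w₀ t : List Sym} (hJ : Parses G1 (Exp.nt NT.J) w₀ (some t))
    (g : List Ins) : ∀ ρ : List (ZMod 2), g.length = ρ.length → Reg t ρ →
    (∀ q, Parses G1 (Exp.nt (NT.P q)) (g.reverse.map Sym.ins ++ Sym.hash :: w₀)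
      (if q = fin 1 g ρ then some (t.drop g.length) else none)) ∧
    Reg (g.reverse.map Sym.ins ++ Sym.hash :: w₀) (fwd 1 g ρ).reverse := by
  induction g using List.reverseRecOn with
  | nil =>
      intro ρ hρ _
      have : ρ = [] := by
        rw [List.length_nil] at hρ
        exact List.length_eq_zero_iff.1 hρ.symm
      subst this
      constructor
      · intro q
        simpa [fin] using parses_P_hash hJ q
      · simp [fwd, Reg]
  | append_singleton g c ih =>
      intro ρ hρ hreg
      rcases List.eq_nil_or_concat ρ with h | ⟨ρ', r, h⟩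
      · subst h; simp at hρ
      · rw [List.concat_eq_append] at h
        subst h
        have hl : g.length = ρ'.length := by simpa using hρ
        obtain ⟨h1, a, t', h2, h3⟩ := hreg.snoc
        obtain ⟨h4, h5⟩ := ih ρ' hl h1
        rw [← hl] at h2
        obtain ⟨h6, h7⟩ := parses_ins (c := c) h4 h2 (by rw [h2]; exact h3)
        rw [List.reverse_append, fwd_append _ _ _ _ _ hl, fin_append _ _ _ _ _ hl,
          List.reverse_append]
        constructor
        · intro q
          have h8 := h6 q
          have h9 : t.drop (g ++ [c]).length = t' := by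
            rw [List.length_append, ← List.drop_drop, h2]
            rfl
          rw [h9, List.reverse_singleton, List.singleton_append, List.map_cons, List.cons_append]
          exact h8
        · simp only [fwd, List.reverse_singleton, List.map_cons,
            List.cons_append]
          exact ⟨h7, h5⟩

/-- The word of a nonempty list of hints. -/
def HW : List (ZMod 2) → List (List (ZMod 2)) → List Sym
  | h, [] => h.map Sym.bit
  | h, h' :: hs => h.map Sym.bit ++ Sym.dollar :: HW h' hs

/-- The last hint. -/
def lastHint : List (ZMod 2) → List (List (ZMod 2)) → List (ZMod 2)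
  | h, [] => h
  | _, h' :: hs => lastHint h' hs

theorem parses_B {h : List (ZMod 2)} {w : List Sym} (hw : ∀ b s, w ≠ Sym.bit b :: s) :
    Parses G1 (Exp.nt NT.B) (h.map Sym.bit ++ w) (some w) := by
  induction h with
  | nil =>
      refine Parses.nt _ _ _ ?_
      refine Parses.alt_right _ _ _ _ (Parses.seq_fail _ _ _ (Parses.term_fail _ _ (hw 0)))
        (Parses.alt_right _ _ _ _ (Parses.seq_fail _ _ _ (Parses.term_fail _ _ (hw 1)))
          (Parses.eps _))
  | cons b h ih =>
      refine Parses.nt _ _ _ ?_
      rcases zmod2_cases b with hb | hb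
      · subst hb
        exact Parses.alt_left _ _ _ _ (Parses.seq_ok _ _ _ _ _ (Parses.term_ok _ _) ih)
      · subst hb
        refine Parses.alt_right _ _ _ _ (Parses.seq_fail _ _ _ (term_none _ ?_))
          (Parses.alt_left _ _ _ _ (Parses.seq_ok _ _ _ _ _ (Parses.term_ok _ _) ih))
        intro h
        injection h with h
        revert h; decide

theorem parses_J_stop {w : List Sym} (h : List (ZMod 2)) (hw : ∀ b s, w ≠ Sym.bit b :: s)
    (hd : ∀ s, w ≠ Sym.dollar :: s) :
    Parses G1 (Exp.nt NT.J) (h.map Sym.bit ++ w) (some (h.map Sym.bit ++ w)) := by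
  refine Parses.nt _ _ _ ?_
  exact Parses.alt_right _ _ _ _ (Parses.seq_ok _ _ _ _ _ (parses_B hw)
    (Parses.seq_fail _ _ _ (Parses.term_fail _ _ hd))) (Parses.eps _)

theorem parses_J_HW (h : List (ZMod 2)) (hs : List (List (ZMod 2))) :
    Parses G1 (Exp.nt NT.J) (HW h hs) (some ((lastHint h hs).map Sym.bit)) := by
  induction hs generalizing h with
  | nil =>
      have := parses_J_stop (w := []) h (by intro b s hh; cases hh) (by intro s hh; cases hh)
      simpa [HW, lastHint] using this
  | cons h' hs ih =>
      refine Parses.nt _ _ _ ?_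
      exact Parses.alt_left _ _ _ _ (Parses.seq_ok _ _ _ _ _
        (parses_B (by intro b s hh; cases hh)) (Parses.seq_ok _ _ _ _ _ (Parses.term_ok _ _)
        (ih h')))

theorem reg_bits (h : List (ZMod 2)) (w : List Sym) : Reg (h.map Sym.bit ++ w) h := by
  induction h with
  | nil => simp [Reg]
  | cons b h ih => exact ⟨hasBit_bit _ _, ih⟩

/-- The word of a list of blocks. -/
def blk : List (List Ins) → List Sym
  | [] => []
  | g :: gs => g.reverse.map Sym.ins ++ Sym.hash :: blk gs

/-- The register content after all blocks; the first block of the list is processed last. -/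
def cont : List (List Ins) → List (ZMod 2) → List (ZMod 2)
  | [], h => h
  | g :: gs, h => (fwd 1 g (cont gs h)).reverse

theorem length_cont {ℓ : ℕ} (gs : List (List Ins)) (hgs : ∀ g ∈ gs, g.length = ℓ)
    (h : List (ZMod 2)) (hh : h.length = ℓ) : (cont gs h).length = ℓ := by
  induction gs with
  | nil => exact hh
  | cons g gs ih =>
      have h1 := ih fun g' hg' => hgs g' (by simp [hg'])
      simp only [cont, List.length_reverse]
      rw [length_fwd _ _ _ (by rw [h1]; exact hgs g (by simp)), h1]

theorem parses_source {ℓ : ℕ} (gs : List (List Ins)) (hgs : ∀ g ∈ gs, g.length = ℓ)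
    (h : List (ZMod 2)) (hs : List (List (ZMod 2))) (hh : (lastHint h hs).length = ℓ) :
    ∃ t, Parses G1 (Exp.nt NT.J) (blk gs ++ HW h hs) (some t) ∧
      Reg t (cont gs (lastHint h hs)) := by
  induction gs with
  | nil =>
      refine ⟨_, parses_J_HW h hs, ?_⟩
      have := reg_bits (lastHint h hs) []
      simpa [cont] using this
  | cons g gs ih =>
      obtain ⟨t, h1, h2⟩ := ih fun g' hg' => hgs g' (by simp [hg'])
      have hl := length_cont gs (fun g' hg' => hgs g' (by simp [hg'])) _ hh
      have h3 := (parses_block h1 g _ (by rw [hl]; exact hgs g (by simp)) h2).2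
      refine ⟨_, ?_, h3⟩
      have h4 : blk (g :: gs) ++ HW h hs =
          ([] : List (ZMod 2)).map Sym.bit ++
            (g.reverse.map Sym.ins ++ Sym.hash :: (blk gs ++ HW h hs)) := by
        simp [blk]
      rw [h4]
      refine parses_J_stop [] ?_ ?_
      · intro b s hh
        cases hg : g.reverse with
        | nil => rw [hg] at hh; cases hh
        | cons c g' => rw [hg] at hh; cases hh
      · intro s hh
        cases hg : g.reverse with
        | nil => rw [hg] at hh; cases hh
        | cons c g' => rw [hg] at hh; cases hh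

/-- Semantics of `C`. -/
theorem parses_C {w₀ t : List Sym} (hJ : Parses G1 (Exp.nt NT.J) w₀ (some t))
    (y : List (ZMod 2)) : ∀ ρ : List (ZMod 2), y.length = ρ.length → Reg t ρ →
    Parses G1 (Exp.nt NT.C) (y.map Sym.bit ++ Sym.hash :: w₀)
      (if y.reverse = ρ then some (t.drop y.length) else none) := by
  induction y with
  | nil =>
      intro ρ hρ _
      have : ρ = [] := by
        rw [List.length_nil] at hρ
        exact List.length_eq_zero_iff.1 hρ.symm
      subst this
      rw [if_pos List.reverse_nil]
      refine Parses.nt _ _ _ ?_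
      exact Parses.alt_right _ _ _ _ (Parses.seq_fail _ _ _ (term_none _ (by intro h; cases h)))
        (Parses.alt_right _ _ _ _ (Parses.seq_fail _ _ _ (term_none _ (by intro h; cases h)))
          (Parses.seq_ok _ _ _ _ _ (Parses.term_ok _ _) hJ))
  | cons b y ih =>
      intro ρ hρ hreg
      rcases List.eq_nil_or_concat ρ with h | ⟨ρ', r, h⟩
      · subst h; simp at hρ
      · rw [List.concat_eq_append] at h
        subst h
        have hl : y.length = ρ'.length := by simpa using hρ
        obtain ⟨h1, a, t', h2, h3⟩ := hreg.snoc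
        have h4 := ih ρ' hl h1
        rw [← hl] at h2
        have key : Parses G1 (Exp.seq (Exp.term (Sym.bit b)) (Exp.seq (Exp.nt NT.C)
            (Exp.seq (Exp.nt (NT.Bt b)) anyE))) (Sym.bit b :: (y.map Sym.bit ++ Sym.hash :: w₀))
            (if (b :: y).reverse = ρ' ++ [r] then some (t.drop (b :: y).length) else none) := by
          refine Parses.seq_ok _ _ _ _ _ (Parses.term_ok _ _) ?_
          by_cases hy : y.reverse = ρ'
          · rw [if_pos hy] at h4
            refine Parses.seq_ok _ _ _ _ _ h4 ?_
            rw [h2]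
            have h5 := h3 b
            by_cases hbr : b = r
            · rw [if_pos hbr] at h5
              rw [if_pos (by rw [List.reverse_cons, hy, hbr])]
              refine Parses.seq_ok _ _ _ _ _ h5 ?_
              have h9 : t.drop (b :: y).length = t' := by
                rw [List.length_cons, ← List.drop_drop, h2]
                rfl
              rw [h9]
              exact anyE_cons _ _
            · rw [if_neg hbr] at h5
              rw [if_neg]
              · exact Parses.seq_fail _ _ _ h5
              · rw [List.reverse_cons]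
                intro h
                have := List.append_inj_right' h rfl
                exact hbr (by simpa using this)
          · rw [if_neg hy] at h4
            rw [if_neg]
            · exact Parses.seq_fail _ _ _ h4
            · rw [List.reverse_cons]
              intro h
              exact hy (List.append_inj_left' h rfl)
        have h01 : Sym.bit 0 ≠ Sym.bit 1 := by intro h; injection h with h; revert h; decide
        refine Parses.nt _ _ _ ?_
        show Parses G1 (Exp.alt (Exp.seq (Exp.term (Sym.bit 0)) (Exp.seq (Exp.nt NT.C)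
          (Exp.seq (Exp.nt (NT.Bt 0)) anyE)))
          (Exp.alt (Exp.seq (Exp.term (Sym.bit 1)) (Exp.seq (Exp.nt NT.C)
          (Exp.seq (Exp.nt (NT.Bt 1)) anyE)))
          (Exp.seq (Exp.term Sym.hash) (Exp.nt NT.J)))) (Sym.bit b :: (y.map Sym.bit ++ Sym.hash :: w₀)) _
        rcases zmod2_cases b with hb | hb
        · subst hb
          split_ifs at key ⊢ with hc
          · exact Parses.alt_left _ _ _ _ key
          · exact Parses.alt_right _ _ _ _ key (Parses.alt_right _ _ _ _
              (Parses.seq_fail _ _ _ (term_none _ h01.symm))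
              (Parses.seq_fail _ _ _ (term_none _ (by intro h; cases h))))
        · subst hb
          refine Parses.alt_right _ _ _ _ (Parses.seq_fail _ _ _ (term_none _ h01)) ?_
          split_ifs at key ⊢ with hc
          · exact Parses.alt_left _ _ _ _ key
          · exact Parses.alt_right _ _ _ _ key
              (Parses.seq_fail _ _ _ (term_none _ (by intro h; cases h)))

theorem parses_A (w : List Sym) : Parses G1 (Exp.nt NT.A) w (some []) := by
  induction w with
  | nil =>
      exact Parses.nt _ _ _ (Parses.alt_right _ _ _ _ (Parses.seq_fail _ _ _ anyE_nil)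
        (Parses.eps _))
  | cons c w ih =>
      exact Parses.nt _ _ _ (Parses.alt_left _ _ _ _ (Parses.seq_ok _ _ _ _ _ (anyE_cons _ _) ih))

/-- Membership of structured words in the language of the first grammar. -/
theorem mem_G1_iff {ℓ : ℕ} (gs : List (List Ins)) (hgs : ∀ g ∈ gs, g.length = ℓ)
    (h : List (ZMod 2)) (hs : List (List (ZMod 2))) (hh : (lastHint h hs).length = ℓ)
    (y : List (ZMod 2)) (hy : y.length ≤ ℓ) :
    y.map Sym.bit ++ Sym.hash :: (blk gs ++ HW h hs) ∈ G1.lang ↔
      y.reverse = (cont gs (lastHint h hs)).take y.length := by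
  obtain ⟨t, h1, h2⟩ := parses_source gs hgs h hs hh
  have hl := length_cont gs hgs _ hh
  have h3 := parses_C h1 y ((cont gs (lastHint h hs)).take y.length)
    (by rw [List.length_take, hl]; omega) (h2.take _)
  constructor
  · intro hm
    by_contra hne
    rw [if_neg hne] at h3
    have h4 : Parses G1 (Exp.nt NT.S) (y.map Sym.bit ++ Sym.hash :: (blk gs ++ HW h hs)) none :=
      Parses.nt _ _ _ (Parses.seq_fail _ _ _ h3)
    have := h4.det hm
    cases this
  · intro he
    rw [if_pos he] at h3
    exact Parses.nt _ _ _ (Parses.seq_ok _ _ _ _ _ h3 (parses_A _))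

end Pool.Agent.H42.PEG
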